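import Pool.Agent.TH941.Newform

/-!
# Mestre-Nagao sums: the Rankin-Selberg sum in logarithmic form

If `|c(n)| ≤ B/n`, `c` is supported on the primes and `∑ c(n) n^{-w}` has a limit as `w → 0+`, then
`∑_{n ≤ x} c(n)` converges to the same limit (Tauberian theorem, `RsLog.stp_tendsto`) and
`(1 / log x) ∑_{n ≤ x} c(n) log n → 0` (Kronecker's lemma, `rs_log`).
-/

set_option autoImplicit false

open MeasureTheory Filter Topology Set
open Pool.Agent.W263.BSD (GoodPrime pointCount bsdProduct)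
open CongruenceSubgroup
open scoped MatrixGroups Classical

namespace Pool.Agent.TH270.NG

namespace RsLog

open Pool.Agent.TH941 (PS)

open Pool.Agent.W263.BSD (stp stp_meas stp_LInt stp_hasSum stp_abs lap LInt lap_sub one_LInt one_lap
  integrable_log_exp tauber_limit)

variable {c : ℕ → ℝ} {B : ℝ}

/-- the comparison function -/
noncomputable def gg (B M : ℝ) (t : ℝ) : ℝ := B * |Real.log t * Real.exp (-t)| + M * Real.exp (-t)

theorem gg_int (B M : ℝ) : IntegrableOn (gg B M) (Ioi 0) := by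
  have h1 : IntegrableOn (fun t : ℝ => |Real.log t * Real.exp (-t)|) (Ioi 0) :=
    integrable_log_exp.norm
  have h2 : IntegrableOn (fun t : ℝ => Real.exp (-t)) (Ioi 0) := by
    have := one_LInt (w := 1) one_pos
    unfold Pool.Agent.W263.BSD.LInt at this
    simpa using this
  exact (h1.const_mul B).add (h2.const_mul M)

theorem dev (hc : PS c B) : ∃ M : ℝ, ∃ u0 : ℝ, 2 ≤ u0 ∧ ∀ U v : ℝ, u0 ≤ U → 0 < v →
    |stp c v - stp c U| ≤ B * |Real.log (v / U)| + M := by
  obtain ⟨u0, h2, h⟩ := hc.slow1 one_pos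
  have hB := hc.pos
  set K : ℝ := ∑' n : ℕ, |c n| * (n : ℝ) ^ (-(1 : ℝ)) with hK
  have hK0 : 0 ≤ K := tsum_nonneg fun n => by positivity
  have hb : ∀ u : ℝ, |stp c u| ≤ K * Real.exp (1 * u) := fun u =>
    stp_abs hc.zero (hc.summable one_pos) zero_le_one u
  refine ⟨1 + 2 * (K * Real.exp u0), u0, h2, fun U v hU hv => ?_⟩
  have hU0 : 0 < U := by linarith
  have hE := Real.exp_pos u0
  have hKE : 0 ≤ K * Real.exp u0 := by positivity
  rcases le_or_gt U v with h3 | h3
  · have h4 := h U v hU h3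
    have h5 := le_abs_self (Real.log (v / U))
    nlinarith
  · have hlog : Real.log (U / v) = -Real.log (v / U) := by
      rw [← Real.log_inv, inv_div]
    rcases le_or_gt u0 v with h4 | h4
    · have h5 := h v U h4 h3.le
      rw [abs_sub_comm] at h5
      have h6 := neg_abs_le (Real.log (v / U))
      rw [hlog] at h5
      nlinarith
    · have h5 := h u0 U le_rfl hU
      have h6 := hb v
      have h7 := hb u0
      have h8 : Real.exp (1 * v) ≤ Real.exp u0 := Real.exp_le_exp.mpr (by linarith)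
      have h9 : Real.exp (1 * u0) = Real.exp u0 := by rw [one_mul]
      rw [h9] at h7
      have h10 := mul_le_mul_of_nonneg_left h8 hK0
      have h11 : Real.log (U / u0) ≤ Real.log (U / v) := by
        apply Real.log_le_log (by positivity)
        gcongr
      have h12 := neg_abs_le (Real.log (v / U))
      have h13 : stp c v - stp c U = stp c v - stp c u0 - (stp c U - stp c u0) := by ring
      rw [h13]
      refine (abs_sub _ _).trans ?_
      have h14 := abs_sub (stp c v) (stp c u0)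
      have h15 : B * Real.log (U / u0) ≤ B * |Real.log (v / U)| := by
        refine mul_le_mul_of_nonneg_left ?_ hB.le
        rw [hlog] at h11
        linarith
      linarith

theorem dev2 (hc : PS c B) : ∃ M : ℝ, ∃ u0 : ℝ, 2 ≤ u0 ∧ ∀ U : ℝ, u0 ≤ U →
    |U⁻¹ * lap (stp c) U⁻¹ - stp c U| ≤ M := by
  obtain ⟨M, u0, h2, h⟩ := dev hc
  refine ⟨∫ t in Ioi (0 : ℝ), gg B M t, u0, h2, fun U hU => ?_⟩
  have hU0 : 0 < U := by linarith
  have hw : 0 < U⁻¹ := inv_pos.mpr hU0
  have i1 : LInt (stp c) U⁻¹ := stp_LInt hc.zero (fun _ h => hc.summable h) hw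
  have i2 : LInt (fun _ => stp c U) U⁻¹ := by
    have := (one_LInt hw)
    unfold Pool.Agent.W263.BSD.LInt at this ⊢
    have h3 := Integrable.const_mul this (stp c U)
    refine h3.congr (Eventually.of_forall fun u => ?_)
    simp only []
    ring
  have e1 : lap (fun _ => stp c U) U⁻¹ = stp c U * U := by
    have h3 := one_lap hw
    unfold Pool.Agent.W263.BSD.lap at h3 ⊢
    rw [integral_const_mul]
    simp only [one_mul] at h3
    rw [h3]
    simp
  have e2 : U⁻¹ * lap (stp c) U⁻¹ - stp c U = U⁻¹ * lap (fun u => stp c u - stp c U) U⁻¹ := by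
    rw [lap_sub i1 i2, e1]
    field_simp
  have e3 : |lap (fun u => stp c u - stp c U) U⁻¹| ≤ ∫ v in Ioi (0 : ℝ), gg B M (U⁻¹ * v) := by
    unfold Pool.Agent.W263.BSD.lap
    rw [← Real.norm_eq_abs]
    have hi : IntegrableOn (fun v => gg B M (U⁻¹ * v)) (Ioi 0) := by
      rw [integrableOn_Ioi_comp_mul_left_iff _ _ hw, mul_zero]
      exact gg_int B M
    refine norm_integral_le_of_norm_le hi ?_
    refine (ae_restrict_iff' measurableSet_Ioi).mpr (Eventually.of_forall fun v hv => ?_)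
    have hv' : (0 : ℝ) < v := hv
    have h3 := h U v hU hv'
    rw [norm_mul, Real.norm_eq_abs, Real.norm_of_nonneg (Real.exp_pos _).le]
    unfold gg
    rw [abs_mul, abs_of_pos (Real.exp_pos (-(U⁻¹ * v)))]
    have h4 : U⁻¹ * v = v / U := by field_simp
    have h5 := mul_le_mul_of_nonneg_right h3 (Real.exp_pos (-(U⁻¹ * v))).le
    rw [h4] at h5 ⊢
    linarith
  have e4 : ∫ v in Ioi (0 : ℝ), gg B M (U⁻¹ * v) = U * ∫ t in Ioi (0 : ℝ), gg B M t := by
    rw [integral_comp_mul_left_Ioi _ _ hw, mul_zero, inv_inv, smul_eq_mul]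
  rw [e2, abs_mul, abs_of_pos hw]
  rw [e4] at e3
  refine (mul_le_mul_of_nonneg_left e3 hw.le).trans (le_of_eq ?_)
  field_simp

theorem bdd (hc : PS c B) {C₀ : ℝ}
    (h : Tendsto (fun w : ℝ => w * lap (stp c) w) (𝓝[>] 0) (𝓝 C₀)) :
    ∃ M : ℝ, ∀ u, 0 < u → |stp c u| ≤ M := by
  obtain ⟨M, u0, h2, h3⟩ := dev2 hc
  have h4 : Tendsto (fun U : ℝ => U⁻¹ * lap (stp c) U⁻¹) atTop (𝓝 C₀) :=
    h.comp tendsto_inv_atTop_nhdsGT_zero
  have h5 : ∀ᶠ U : ℝ in atTop, |U⁻¹ * lap (stp c) U⁻¹| ≤ |C₀| + 1 := by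
    have h6 := h4.abs
    exact (h6.eventually (ge_mem_nhds (show |C₀| < |C₀| + 1 by linarith)))
  obtain ⟨u1, h6⟩ := eventually_atTop.mp h5
  set K : ℝ := ∑' n : ℕ, |c n| * (n : ℝ) ^ (-(1 : ℝ)) with hK
  have hK0 : 0 ≤ K := tsum_nonneg fun n => by positivity
  have hb : ∀ u : ℝ, |stp c u| ≤ K * Real.exp (1 * u) := fun u =>
    stp_abs hc.zero (hc.summable one_pos) zero_le_one u
  have hM0 : 0 ≤ M := (abs_nonneg _).trans (h3 u0 le_rfl)
  refine ⟨(|C₀| + 1 + M) + K * Real.exp (max u0 u1), fun u hu => ?_⟩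
  have hKE : 0 ≤ K * Real.exp (max u0 u1) := by positivity
  rcases le_or_gt (max u0 u1) u with h7 | h7
  · have h8 := h3 u ((le_max_left _ _).trans h7)
    have h9 := h6 u ((le_max_right _ _).trans h7)
    have h10 : stp c u = u⁻¹ * lap (stp c) u⁻¹ - (u⁻¹ * lap (stp c) u⁻¹ - stp c u) := by ring
    rw [h10]
    refine (abs_sub _ _).trans ?_
    linarith
  · have h8 := hb u
    have h9 : Real.exp (1 * u) ≤ Real.exp (max u0 u1) := Real.exp_le_exp.mpr (by linarith)
    have h10 := mul_le_mul_of_nonneg_left h9 hK0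
    have h11 := abs_nonneg C₀
    linarith

/-- **The Tauberian theorem**: the sum converges. -/
theorem stp_tendsto (hc : PS c B) {C₀ : ℝ}
    (h : Tendsto (fun w : ℝ => ∑' n : ℕ, c n * (n : ℝ) ^ (-w)) (𝓝[>] 0) (𝓝 C₀)) :
    Tendsto (stp c) atTop (𝓝 C₀) := by
  have hB := hc.pos
  have h1 : Tendsto (fun w : ℝ => w * lap (stp c) w) (𝓝[>] 0) (𝓝 C₀) := by
    refine h.congr' ?_
    filter_upwards [self_mem_nhdsWithin] with w hw
    exact (stp_hasSum hc.zero (fun _ h => hc.summable h) hw).tsum_eq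
  obtain ⟨M, hM⟩ := bdd hc h1
  refine tauber_limit (stp_meas c) (fun w hw => stp_LInt hc.zero (fun _ h => hc.summable h) hw)
    hM h1 fun ε hε => ?_
  obtain ⟨u0, h2, h3⟩ := hc.slow1 (half_pos hε)
  refine ⟨ε / (2 * B), by positivity, u0, fun u v h4 h5 h6 => ?_⟩
  have hu : 0 < u := by linarith
  have h7 := h3 u v h4 h5
  have h9 : B * Real.log (v / u) ≤ ε / 2 := by
    have e1 : v / u ≤ 1 + ε / (2 * B) := by rw [div_le_iff₀ hu]; exact h6
    have e2 : 0 < v / u := div_pos (by linarith) hu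
    have e3 := Real.log_le_sub_one_of_pos e2
    have e4 : Real.log (v / u) ≤ ε / (2 * B) := by linarith
    refine (mul_le_mul_of_nonneg_left e4 hB.le).trans (le_of_eq ?_)
    field_simp
  have h8 := abs_le.mp h7
  linarith

/-- the partial sums -/
noncomputable def SS (c : ℕ → ℝ) (N : ℕ) : ℝ := ∑ n ∈ Finset.range (N + 1), c n

theorem SS_eq (c : ℕ → ℝ) {N : ℕ} (hN : 1 ≤ N) : SS c N = stp c (Real.log N) := by
  unfold SS Pool.Agent.W263.BSD.stp
  have hN0 : (0 : ℝ) < N := by exact_mod_cast hN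
  rw [Real.exp_log hN0, Nat.floor_natCast]

theorem SS_tendsto {C₀ : ℝ} (h : Tendsto (stp c) atTop (𝓝 C₀)) :
    Tendsto (SS c) atTop (𝓝 C₀) := by
  have h1 : Tendsto (fun N : ℕ => Real.log (N : ℝ)) atTop atTop :=
    Real.tendsto_log_atTop.comp tendsto_natCast_atTop_atTop
  refine (h.comp h1).congr' ?_
  filter_upwards [eventually_ge_atTop 1] with N hN
  rw [SS_eq c hN]
  rfl

theorem abel (h0 : c 0 = 0) (C₀ : ℝ) (N : ℕ) :
    ∑ n ∈ Finset.range (N + 1), c n * Real.log n =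
      (SS c N - C₀) * Real.log N -
        ∑ n ∈ Finset.range N, (SS c n - C₀) * (Real.log ((n + 1 : ℕ) : ℝ) - Real.log n) := by
  induction N with
  | zero => simp [h0]
  | succ N ih =>
    rw [Finset.sum_range_succ, ih, Finset.sum_range_succ]
    have h1 : SS c (N + 1) = SS c N + c (N + 1) := by
      unfold SS
      rw [Finset.sum_range_succ _ (N + 1)]
    rw [h1]
    ring

theorem kron (h0 : c 0 = 0) {C₀ : ℝ} (h : Tendsto (SS c) atTop (𝓝 C₀)) :
    Tendsto (fun N : ℕ => (∑ n ∈ Finset.range (N + 1), c n * Real.log n) / Real.log N)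
      atTop (𝓝 0) := by
  have h1 : Tendsto (fun N : ℕ => SS c N - C₀) atTop (𝓝 0) := by
    have := h.sub_const C₀
    rwa [sub_self] at this
  set g : ℕ → ℝ := fun n => Real.log ((n + 1 : ℕ) : ℝ) - Real.log n with hg
  have hg0 : 0 ≤ g := by
    intro n
    rw [hg]
    simp only [Pi.zero_apply, sub_nonneg]
    rcases Nat.eq_zero_or_pos n with rfl | hn
    · simp
    · exact Real.log_le_log (by exact_mod_cast hn) (by exact_mod_cast Nat.le_succ n)
  have hgs : ∀ N : ℕ, ∑ n ∈ Finset.range N, g n = Real.log N := by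
    intro N
    rw [hg, Finset.sum_range_sub (fun n : ℕ => Real.log (n : ℝ))]
    simp
  have hlog : Tendsto (fun N : ℕ => Real.log (N : ℝ)) atTop atTop :=
    Real.tendsto_log_atTop.comp tendsto_natCast_atTop_atTop
  have h2 : (fun n : ℕ => (SS c n - C₀) * g n) =o[atTop] g := by
    have h3 : (fun n : ℕ => SS c n - C₀) =o[atTop] (fun _ => (1 : ℝ)) :=
      (Asymptotics.isLittleO_one_iff ℝ).mpr h1
    have h4 := h3.mul_isBigO (Asymptotics.isBigO_refl g atTop)
    simpa using h4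
  have h3 := h2.sum_range hg0 (by simp only [hgs]; exact hlog)
  simp only [hgs] at h3
  have h4 := h3.tendsto_div_nhds_zero
  have h5 := h1.sub h4
  rw [sub_self] at h5
  refine h5.congr' ?_
  filter_upwards [eventually_ge_atTop 2] with N hN
  rw [abel h0 C₀ N, sub_div]
  have h6 : Real.log (N : ℝ) ≠ 0 := by
    have : (1 : ℝ) < N := by exact_mod_cast hN
    exact (Real.log_pos this).ne'
  rw [mul_div_cancel_right₀ _ h6]

end RsLog

open RsLog in
theorem rs_log {c : ℕ → ℝ} {B C₀ : ℝ} (hc : Pool.Agent.TH941.PS c B)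
    (h : Tendsto (fun w : ℝ => ∑' n : ℕ, c n * (n : ℝ) ^ (-w)) (𝓝[>] 0) (𝓝 C₀)) :
    Tendsto (fun x : ℝ => (∑ n ∈ Finset.range (⌊x⌋₊ + 1), c n * Real.log n) / Real.log x)
      atTop (𝓝 0) := by
  have h1 := kron hc.zero (SS_tendsto (stp_tendsto hc h))
  have h2 : Tendsto (fun x : ℝ => (∑ n ∈ Finset.range (⌊x⌋₊ + 1), c n * Real.log n) /
      Real.log (⌊x⌋₊ : ℝ)) atTop (𝓝 0) := h1.comp (tendsto_nat_floor_atTop (α := ℝ))
  refine squeeze_zero_norm' ?_ (by simpa using h2.norm)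
  filter_upwards [eventually_ge_atTop 2] with x hx
  have h3 : 2 ≤ ⌊x⌋₊ := Nat.le_floor (by exact_mod_cast hx)
  have h4 : (1 : ℝ) < ⌊x⌋₊ := by
    have : (2 : ℝ) ≤ ⌊x⌋₊ := by exact_mod_cast h3
    linarith
  have h5 : (⌊x⌋₊ : ℝ) ≤ x := Nat.floor_le (by linarith)
  have h6 : Real.log (⌊x⌋₊ : ℝ) ≤ Real.log x := Real.log_le_log (by linarith) h5
  have h7 := Real.log_pos h4
  simp only [Real.norm_eq_abs, abs_div]
  rw [abs_of_pos h7, abs_of_pos (h7.trans_le h6)]
  gcongr

end Pool.Agent.TH270.NG
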