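import Pool.Agent.TH270.NG.Defs

/-!
# Partial summation for the logarithm of the Birch and Swinnerton-Dyer product
-/

set_option autoImplicit false
open MeasureTheory Filter Topology Set
open Pool.Agent.W263.BSD (GoodPrime pointCount bsdProduct)
open CongruenceSubgroup
open scoped MatrixGroups Classical

namespace Pool.Agent.TH270.NG

namespace AB

/-- Abel summation against `log` -/
theorem absA (c : ℕ → ℝ) (h0 : c 0 = 0) {x : ℝ} (hx : 1 ≤ x) :
    ∑ k ∈ Finset.Icc 0 ⌊x⌋₊, Real.log k * c k =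
      Real.log x * (∑ k ∈ Finset.Icc 0 ⌊x⌋₊, c k) -
        ∫ t in (1 : ℝ)..x, (∑ k ∈ Finset.Icc 0 ⌊t⌋₊, c k) / t := by
  have hne : ∀ t ∈ Icc 1 x, t ≠ 0 := fun t ht => (lt_of_lt_of_le one_pos ht.1).ne'
  have hd : ∀ t ∈ Icc 1 x, DifferentiableAt ℝ Real.log t := fun t ht =>
    Real.differentiableAt_log (hne t ht)
  have hi : IntegrableOn (deriv Real.log) (Icc 1 x) := by
    have : ContinuousOn (deriv Real.log) (Icc 1 x) := by
      rw [Real.deriv_log']
      exact continuousOn_inv₀.mono fun t ht => hne t ht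
    exact this.integrableOn_Icc
  rw [sum_mul_eq_sub_integral_mul₀ c h0 x hd hi, intervalIntegral.integral_of_le hx]
  congr 1
  refine setIntegral_congr_fun measurableSet_Ioc fun t _ => ?_
  simp only [Real.deriv_log]
  ring

theorem log_cont_aux {b : ℝ} : ContinuousOn (fun t : ℝ => 1 / (t * Real.log t ^ 2)) (Icc 2 b) := by
  refine continuousOn_const.div (continuousOn_id.mul ((Real.continuousOn_log.mono ?_).pow 2)) ?_
  · intro t ht
    exact (show (0 : ℝ) < t by linarith [ht.1]).ne'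
  · intro t ht
    have h1 : (0 : ℝ) < t := by linarith [ht.1]
    have h2 : 0 < Real.log t := Real.log_pos (by linarith [ht.1])
    exact (mul_pos h1 (pow_pos h2 2)).ne'

/-- Abel summation against `1 / log` -/
theorem absB (c : ℕ → ℝ) (h0 : c 0 = 0) (h1 : c 1 = 0) {x : ℝ} (hx : 2 ≤ x) :
    ∑ k ∈ Finset.Icc 0 ⌊x⌋₊, c k =
      (∑ k ∈ Finset.Icc 0 ⌊x⌋₊, Real.log k * c k) / Real.log x +
        ∫ t in (2 : ℝ)..x, (∑ k ∈ Finset.Icc 0 ⌊t⌋₊, Real.log k * c k) *
          (1 / (t * Real.log t ^ 2)) := by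
  set d : ℕ → ℝ := fun k => Real.log k * c k with hdd
  set f : ℝ → ℝ := fun t => (Real.log t)⁻¹ with hf
  have hder : ∀ t ∈ Icc 2 x, HasDerivAt f (-(1 / (t * Real.log t ^ 2))) t := by
    intro t ht
    have ht0 : (0 : ℝ) < t := by linarith [ht.1]
    have hl : 0 < Real.log t := Real.log_pos (by linarith [ht.1])
    have h := (Real.hasDerivAt_log ht0.ne').inv hl.ne'
    refine h.congr_deriv ?_
    field_simp
  have hd : ∀ t ∈ Icc 2 x, DifferentiableAt ℝ f t := fun t ht => (hder t ht).differentiableAt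
  have hi : IntegrableOn (deriv f) (Icc 2 x) := by
    have h2 : IntegrableOn (fun t : ℝ => -(1 / (t * Real.log t ^ 2))) (Icc 2 x) :=
      (log_cont_aux.neg).integrableOn_Icc
    refine h2.congr_fun (fun t ht => ((hder t ht).deriv).symm) measurableSet_Icc
  have hsum : ∑ k ∈ Finset.Icc 0 ⌊x⌋₊, c k = ∑ k ∈ Finset.Icc 0 ⌊x⌋₊, f k * d k := by
    refine Finset.sum_congr rfl fun k _ => ?_
    rcases Nat.lt_or_ge k 2 with hk | hk
    · interval_cases k
      · simp [hdd, h0]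
      · simp [hdd, h1]
    · have hk1 : (1 : ℝ) < k := by exact_mod_cast hk
      have hl : Real.log k ≠ 0 := (Real.log_pos hk1).ne'
      simp only [hf, hdd]
      field_simp
  have hd0 : d 0 = 0 := by simp [hdd, h0]
  have hd1 : d 1 = 0 := by simp [hdd, h1]
  rw [hsum, sum_mul_eq_sub_integral_mul₁ d hd0 hd1 x hd hi, intervalIntegral.integral_of_le hx,
    sub_eq_add_neg, ← integral_neg]
  congr 1
  · simp only [hf]
    ring
  · refine setIntegral_congr_fun measurableSet_Ioc fun t ht => ?_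
    simp only [(hder t (Ioc_subset_Icc_self ht)).deriv]
    ring

/-- the bound of the sum -/
theorem absC (c : ℕ → ℝ) (h0 : c 0 = 0) (h1 : c 1 = 0) :
    ∃ K : ℝ, ∀ x : ℝ, Real.exp 1 ≤ x →
      |∑ k ∈ Finset.Icc 0 ⌊x⌋₊, c k| ≤
        |∑ k ∈ Finset.Icc 0 ⌊x⌋₊, Real.log k * c k| / Real.log x + K +
        ∫ t in Real.exp 1..x, |∑ k ∈ Finset.Icc 0 ⌊t⌋₊, Real.log k * c k| /
          (t * Real.log t ^ 2) := by
  set d : ℕ → ℝ := fun k => Real.log k * c k with hdd
  set F : ℝ → ℝ := fun t => (∑ k ∈ Finset.Icc 0 ⌊t⌋₊, d k) * (1 / (t * Real.log t ^ 2)) with hF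
  have he2 : (2 : ℝ) ≤ Real.exp 1 := by
    have := Real.exp_one_gt_d9
    linarith
  have hint : ∀ {u v : ℝ}, 2 ≤ u → u ≤ v → IntervalIntegrable F volume u v := by
    intro u v hu huv
    rw [intervalIntegrable_iff_integrableOn_Icc_of_le huv]
    have h2 : IntegrableOn (fun t : ℝ => 1 / (t * Real.log t ^ 2)) (Icc u v) :=
      (log_cont_aux.mono (Icc_subset_Icc_left hu)).integrableOn_Icc
    have h3 := integrableOn_mul_sum_Icc d (m := 0) (by linarith : 0 ≤ u) h2
    refine h3.congr_fun (fun t _ => ?_) measurableSet_Icc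
    simp only [hF]
    ring
  refine ⟨|∫ t in (2 : ℝ)..Real.exp 1, F t|, fun x hx => ?_⟩
  have hx2 : 2 ≤ x := he2.trans hx
  have hlx : 0 < Real.log x := Real.log_pos (by linarith)
  have hsplit : ∫ t in (2 : ℝ)..x, F t =
      (∫ t in (2 : ℝ)..Real.exp 1, F t) + ∫ t in Real.exp 1..x, F t :=
    (intervalIntegral.integral_add_adjacent_intervals (hint le_rfl he2) (hint he2 hx)).symm
  have hB := absB c h0 h1 hx2
  have habs : |∫ t in Real.exp 1..x, F t| ≤ ∫ t in Real.exp 1..x, |∑ k ∈ Finset.Icc 0 ⌊t⌋₊, d k| /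
      (t * Real.log t ^ 2) := by
    refine (intervalIntegral.abs_integral_le_integral_abs hx).trans (le_of_eq ?_)
    refine intervalIntegral.integral_congr fun t ht => ?_
    rw [uIcc_of_le hx] at ht
    have ht0 : (0 : ℝ) < t := by linarith [ht.1]
    have hl : 0 < Real.log t := Real.log_pos (by linarith [ht.1])
    have hp : 0 < 1 / (t * Real.log t ^ 2) := by positivity
    simp only [hF]
    rw [abs_mul, abs_of_pos hp]
    ring
  rw [hB]
  have e : ∫ t in (2 : ℝ)..x, (∑ k ∈ Finset.Icc 0 ⌊t⌋₊, Real.log k * c k) *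
      (1 / (t * Real.log t ^ 2)) = ∫ t in (2 : ℝ)..x, F t := rfl
  rw [e, hsplit]
  calc |(∑ k ∈ Finset.Icc 0 ⌊x⌋₊, Real.log k * c k) / Real.log x +
      ((∫ t in (2 : ℝ)..Real.exp 1, F t) + ∫ t in Real.exp 1..x, F t)|
      ≤ |(∑ k ∈ Finset.Icc 0 ⌊x⌋₊, Real.log k * c k) / Real.log x| +
        |(∫ t in (2 : ℝ)..Real.exp 1, F t) + ∫ t in Real.exp 1..x, F t| := abs_add_le _ _
    _ ≤ |(∑ k ∈ Finset.Icc 0 ⌊x⌋₊, Real.log k * c k) / Real.log x| +
        (|∫ t in (2 : ℝ)..Real.exp 1, F t| + |∫ t in Real.exp 1..x, F t|) := by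
      gcongr
      exact abs_add_le _ _
    _ ≤ _ := by
      rw [abs_div, abs_of_pos hlx]
      linarith


/-- the coefficients -/
noncomputable def cc (a b : ℤ) (n : ℕ) : ℝ :=
  if GoodPrime a b n then Real.log (((pointCount a b n : ℝ) + 1) / n) else 0

theorem cc0 (a b : ℤ) : cc a b 0 = 0 := by
  rw [cc, if_neg]
  exact fun h => Nat.not_prime_zero h.1

theorem cc1 (a b : ℤ) : cc a b 1 = 0 := by
  rw [cc, if_neg]
  exact fun h => Nat.not_prime_one h.1

theorem icc_eq (m : ℕ) : Finset.range (m + 1) = Finset.Icc 0 m := by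
  ext k
  simp

theorem log_eq (a b : ℤ) (x : ℝ) :
    Real.log (bsdProduct a b x) = ∑ k ∈ Finset.Icc 0 ⌊x⌋₊, cc a b k := by
  rw [bsdProduct, Real.log_prod, Finset.sum_filter, icc_eq]
  · rfl
  · intro p hp
    have hp1 : 0 < (p : ℝ) := by exact_mod_cast (Finset.mem_filter.mp hp).2.1.pos
    positivity

theorem Tg_eq (a b : ℤ) (x : ℝ) :
    Tg a b x = ∑ k ∈ Finset.Icc 0 ⌊x⌋₊, Real.log k * cc a b k := by
  rw [Tg, Finset.sum_filter, icc_eq]
  refine Finset.sum_congr rfl fun k _ => ?_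
  rw [cc]
  split_ifs
  · ring
  · ring

end AB

theorem abel1 (a b : ℤ) {x : ℝ} (hx : 1 ≤ x) :
    Tg a b x = Real.log (bsdProduct a b x) * Real.log x -
      ∫ t in (1 : ℝ)..x, Real.log (bsdProduct a b t) / t := by
  simp only [AB.Tg_eq, AB.log_eq]
  rw [AB.absA (AB.cc a b) (AB.cc0 a b) hx]
  ring

theorem abel2 (a b : ℤ) : ∃ K : ℝ, ∀ x : ℝ, Real.exp 1 ≤ x →
    |Real.log (bsdProduct a b x)| ≤ |Tg a b x| / Real.log x + K +
      ∫ t in Real.exp 1..x, |Tg a b t| / (t * Real.log t ^ 2) := by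
  simp only [AB.Tg_eq, AB.log_eq]
  exact AB.absC (AB.cc a b) (AB.cc0 a b) (AB.cc1 a b)

end Pool.Agent.TH270.NG
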