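import Pool.Agent.TH270.NG.Defs
import Pool.Agent.Helper923.HMertens

/-!
# The Mestre-Nagao sum against the logarithm of the product
-/

set_option autoImplicit false

open MeasureTheory Filter Topology Set
open Pool.Agent.W263.BSD (GoodPrime pointCount bsdProduct)
open CongruenceSubgroup
open scoped MatrixGroups Classical

namespace Pool.Agent.TH270.NG

namespace NT

/-- the expansion of the logarithm at a prime -/
theorem log_bound {p A : ℝ} (hp : 64 ≤ p) (hA : |A| ≤ 2 * Real.sqrt p) :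
    |A / p + Real.log (1 + (1 - A) / p) - 1 / (2 * p) + (A ^ 2 - p) / (2 * p ^ 2)| ≤
      57 / Real.sqrt p ^ 3 := by
  have hp0 : 0 < p := by linarith
  set q := Real.sqrt p with hq
  have hq0 : 0 < q := Real.sqrt_pos.2 hp0
  have hq2 : q ^ 2 = p := Real.sq_sqrt hp0.le
  have hq8 : 8 ≤ q := by
    rw [hq]
    apply Real.le_sqrt_of_sq_le
    linarith
  set t := (1 - A) / p with ht
  have htq : |t| ≤ 3 / q := by
    rw [ht, abs_div, abs_of_pos hp0, div_le_div_iff₀ hp0 hq0]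
    have h1 : |1 - A| ≤ 1 + 2 * q := by
      refine (abs_sub _ _).trans ?_
      rw [abs_one]
      linarith
    calc |1 - A| * q ≤ (1 + 2 * q) * q := by gcongr
      _ ≤ 3 * p := by rw [← hq2]; nlinarith
  have ht2 : |t| ≤ 1 / 2 := by
    refine htq.trans ?_
    rw [div_le_div_iff₀ hq0 (by norm_num)]
    linarith
  have hlog := Real.abs_log_sub_add_sum_range_le (x := -t) (by rw [abs_neg]; linarith) 2
  rw [abs_neg] at hlog
  have e1 : (∑ i ∈ Finset.range 2, (-t) ^ (i + 1) / ((i : ℝ) + 1)) + Real.log (1 - -t) =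
      Real.log (1 + t) - t + t ^ 2 / 2 := by
    rw [Finset.sum_range_succ, Finset.sum_range_one]
    norm_num
    ring
  rw [e1] at hlog
  have h3 : |t| ^ 3 / (1 - |t|) ≤ 54 / q ^ 3 := by
    have h4 : |t| ^ 3 / (1 - |t|) ≤ |t| ^ 3 / (1 / 2) := by
      gcongr
      linarith
    have h5 : |t| ^ 3 ≤ (3 / q) ^ 3 := by gcongr
    have h6 : (3 / q) ^ 3 = 27 / q ^ 3 := by rw [div_pow]; norm_num
    have h7 : (54 : ℝ) / q ^ 3 = 27 / q ^ 3 / (1 / 2) := by ring
    rw [h7]
    refine h4.trans ?_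
    gcongr
    rw [← h6]; exact h5
  have hR : |Real.log (1 + t) - t + t ^ 2 / 2| ≤ 54 / q ^ 3 := hlog.trans (by simpa using h3)
  have e2 : A / p + Real.log (1 + t) - 1 / (2 * p) + (A ^ 2 - p) / (2 * p ^ 2) =
      (Real.log (1 + t) - t + t ^ 2 / 2) + (2 * A - 1) / (2 * p ^ 2) := by
    rw [ht]
    field_simp
    ring
  rw [e2]
  refine (abs_add_le _ _).trans ?_
  have h8 : |(2 * A - 1) / (2 * p ^ 2)| ≤ 3 / q ^ 3 := by
    rw [abs_div, abs_of_pos (by positivity : 0 < 2 * p ^ 2), div_le_div_iff₀ (by positivity)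
      (by positivity)]
    have h9 : |2 * A - 1| ≤ 5 * q := by
      refine (abs_sub _ _).trans ?_
      rw [abs_one, abs_mul, abs_two]
      linarith
    calc |2 * A - 1| * q ^ 3 ≤ 5 * q * q ^ 3 := by gcongr
      _ ≤ 3 * (2 * p ^ 2) := by
        rw [← hq2]
        have : 0 < q ^ 4 := by positivity
        nlinarith
  have h10 : (57 : ℝ) / q ^ 3 = 54 / q ^ 3 + 3 / q ^ 3 := by ring
  rw [h10]
  exact add_le_add hR h8

variable {a b : ℤ} {N : ℕ} [NeZero N] {f : CuspForm (Gamma0 N : Subgroup (GL (Fin 2) ℝ)) 2}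

/-- the remainder -/
noncomputable def r (a b : ℤ) (f : CuspForm (Gamma0 N : Subgroup (GL (Fin 2) ℝ)) 2) (n : ℕ) : ℝ :=
  (if GoodPrime a b n then ((n : ℝ) - pointCount a b n) * Real.log n / n +
    Real.log (((pointCount a b n : ℝ) + 1) / n) * Real.log n else 0) -
  (1 / 2) * (if n.Prime then Real.log n / n else 0) +
  (1 / 2) * (Pool.Agent.TH941.cr f n * Real.log n)

theorem r_bound (hf : Pool.Agent.TH941.Hecke f) (hb : Pool.Agent.TH941.Belongs a b f) {n : ℕ}
    (hn : 64 ≤ n) (hg : n.Prime → GoodPrime a b n) :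
    |r a b f n| ≤ 228 * (n : ℝ) ^ (-(5 / 4 : ℝ)) := by
  have hn0 : (0 : ℝ) < n := by
    have : (64 : ℝ) ≤ n := by exact_mod_cast hn
    linarith
  by_cases hp : n.Prime
  · have hgood := hg hp
    set A : ℝ := (n : ℝ) - pointCount a b n with hA
    have hac : ‖Pool.Agent.W165.RS.ac f n‖ = |A| := by
      rw [hb n hgood]
      have : (n : ℂ) - (pointCount a b n : ℂ) = ((A : ℝ) : ℂ) := by
        rw [hA]; push_cast; ring
      rw [this, Complex.norm_real, Real.norm_eq_abs]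
    have hq1 : 1 ≤ Real.sqrt n := by
      rw [Real.one_le_sqrt]
      have : (64 : ℝ) ≤ n := by exact_mod_cast hn
      linarith
    have hAb : |A| ≤ 2 * Real.sqrt n := by
      rw [← hac]
      by_cases hN : n ∣ N
      · refine (hf.bad n hp hN).trans ?_
        linarith
      · exact hf.good n hp hN
    have hcr : Pool.Agent.TH941.cr f n = (A ^ 2 - n) / (n : ℝ) ^ 2 := by
      unfold Pool.Agent.TH941.cr Pool.Agent.TH941.gg
      rw [if_pos hp, hac, sq_abs]
      field_simp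
    have hlb := log_bound (p := n) (A := A) (by exact_mod_cast hn) hAb
    have e1 : ((pointCount a b n : ℝ) + 1) / n = 1 + (1 - A) / n := by
      rw [hA]
      field_simp
      ring
    have e2 : r a b f n = Real.log n * (A / n + Real.log (1 + (1 - A) / n) - 1 / (2 * n) +
        (A ^ 2 - n) / (2 * (n : ℝ) ^ 2)) := by
      unfold r
      rw [if_pos hgood, if_pos hp, hcr, e1]
      field_simp
      ring
    rw [e2, abs_mul]
    have hlog0 : 0 ≤ Real.log n := Real.log_natCast_nonneg n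
    rw [abs_of_nonneg hlog0]
    have hlog : Real.log n ≤ 4 * (n : ℝ) ^ (1 / 4 : ℝ) := by
      have := Real.log_le_rpow_div hn0.le (ε := 1 / 4) (by norm_num)
      linarith
    have e3 : 57 / Real.sqrt n ^ 3 = 57 * (n : ℝ) ^ (-(3 / 2) : ℝ) := by
      rw [Real.sqrt_eq_rpow, ← Real.rpow_natCast, ← Real.rpow_mul hn0.le, Real.rpow_neg hn0.le]
      norm_num
      ring
    rw [e3] at hlb
    calc Real.log n * |A / n + Real.log (1 + (1 - A) / n) - 1 / (2 * n) +
        (A ^ 2 - n) / (2 * (n : ℝ) ^ 2)| ≤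
        (4 * (n : ℝ) ^ (1 / 4 : ℝ)) * (57 * (n : ℝ) ^ (-(3 / 2) : ℝ)) := by gcongr
      _ = 228 * ((n : ℝ) ^ (1 / 4 : ℝ) * (n : ℝ) ^ (-(3 / 2) : ℝ)) := by ring
      _ = 228 * (n : ℝ) ^ (-(5 / 4 : ℝ)) := by
        rw [← Real.rpow_add hn0]; norm_num
  · have hng : ¬ GoodPrime a b n := fun h => hp h.1
    have : r a b f n = 0 := by
      unfold r Pool.Agent.TH941.cr
      rw [if_neg hng, if_neg hp, if_neg hp]
      ring
    rw [this, abs_zero]
    positivity

theorem r_summable (hf : Pool.Agent.TH941.Hecke f) (hΔ : 4 * a ^ 3 + 27 * b ^ 2 ≠ 0)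
    (hb : Pool.Agent.TH941.Belongs a b f) : Summable (r a b f) := by
  obtain ⟨D, hD⟩ := Pool.Agent.W263.BSD.good_of_large hΔ
  have hs : Summable (fun n : ℕ => (n : ℝ) ^ (-(5 / 4 : ℝ))) :=
    Real.summable_nat_rpow.2 (by norm_num)
  refine summable_of_isBigO_nat hs ?_
  refine Asymptotics.IsBigO.of_bound 228 ?_
  filter_upwards [eventually_gt_atTop D, eventually_ge_atTop 64] with n h1 h2
  rw [Real.norm_eq_abs, Real.norm_eq_abs,
    abs_of_nonneg (a := (n : ℝ) ^ (-(5 / 4 : ℝ))) (by positivity)]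
  exact r_bound hf hb h2 fun hp => hD n hp h1

theorem mertens : Tendsto (fun x : ℝ => (∑ n ∈ Finset.range (⌊x⌋₊ + 1),
    (if n.Prime then Real.log n / n else 0 : ℝ)) / Real.log x) atTop (𝓝 1) := by
  obtain ⟨C, hC⟩ := Pool.Agent.Helper923.HMertens.mertens_log
  have h1 : Tendsto (fun x : ℝ => ((∑ n ∈ Finset.range (⌊x⌋₊ + 1),
      (if n.Prime then Real.log n / n else 0 : ℝ)) - Real.log x) / Real.log x) atTop (𝓝 0) := by
    have h2 : Tendsto (fun x : ℝ => (C + Real.log 2) / Real.log x) atTop (𝓝 0) :=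
      tendsto_const_nhds.div_atTop Real.tendsto_log_atTop
    refine squeeze_zero_norm' ?_ h2
    filter_upwards [eventually_gt_atTop 1] with x hx
    have hlx : 0 < Real.log x := Real.log_pos hx
    rw [norm_div, Real.norm_eq_abs, Real.norm_eq_abs, abs_of_pos hlx]
    refine div_le_div_of_nonneg_right ?_ hlx.le
    have hfl : 1 ≤ ⌊x⌋₊ := by
      rw [Nat.one_le_floor_iff]; exact hx.le
    have h3 := hC ⌊x⌋₊ hfl
    have h4 : ∑ n ∈ Finset.range (⌊x⌋₊ + 1), (if n.Prime then Real.log n / n else 0 : ℝ) =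
        ∑ p ∈ (Finset.Icc 1 ⌊x⌋₊).filter Nat.Prime, Real.log p / p := by
      rw [← Finset.sum_filter]
      refine Finset.sum_congr ?_ fun _ _ => rfl
      ext n
      simp only [Finset.mem_filter, Finset.mem_range, Finset.mem_Icc]
      constructor
      · rintro ⟨h5, h6⟩
        exact ⟨⟨h6.one_lt.le, by omega⟩, h6⟩
      · rintro ⟨h5, h6⟩
        exact ⟨by omega, h6⟩
    rw [h4]
    have hfl0 : (0 : ℝ) < (⌊x⌋₊ : ℝ) := by exact_mod_cast hfl
    have h5 : Real.log ⌊x⌋₊ ≤ Real.log x :=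
      Real.log_le_log hfl0 (Nat.floor_le (by linarith))
    have h6 : Real.log x ≤ Real.log 2 + Real.log ⌊x⌋₊ := by
      rw [← Real.log_mul (by norm_num) hfl0.ne']
      refine Real.log_le_log (by linarith) ?_
      have h7 := Nat.lt_floor_add_one x
      have h8 : (1 : ℝ) ≤ (⌊x⌋₊ : ℝ) := by exact_mod_cast hfl
      linarith
    rw [abs_le] at h3 ⊢
    have := Real.log_nonneg (show (1 : ℝ) ≤ 2 by norm_num)
    constructor <;> linarith
  have h2 := h1.add_const 1
  rw [zero_add] at h2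
  refine h2.congr' ?_
  filter_upwards [eventually_gt_atTop 1] with x hx
  have hlx : Real.log x ≠ 0 := (Real.log_pos hx).ne'
  field_simp
  ring

end NT

open NT in
theorem nagao_T {a b : ℤ} {N : ℕ} [NeZero N]
    {f : CuspForm (Gamma0 N : Subgroup (GL (Fin 2) ℝ)) 2} (hf : Pool.Agent.TH941.Hecke f)
    (hΔ : 4 * a ^ 3 + 27 * b ^ 2 ≠ 0) (hb : Pool.Agent.TH941.Belongs a b f)
    (hV : Tendsto (fun x : ℝ => (∑ n ∈ Finset.range (⌊x⌋₊ + 1),
      Pool.Agent.TH941.cr f n * Real.log n) / Real.log x) atTop (𝓝 0)) :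
    Tendsto (fun x : ℝ => (Sg a b x + Tg a b x) / Real.log x) atTop (𝓝 (1 / 2)) := by
  have hr := r_summable hf hΔ hb
  have hfl : Tendsto (fun x : ℝ => ⌊x⌋₊ + 1) atTop atTop :=
    (tendsto_add_atTop_nat 1).comp tendsto_nat_floor_atTop
  have h1 := hr.hasSum.tendsto_sum_nat.comp hfl
  have h2 : Tendsto (fun x : ℝ => (∑ n ∈ Finset.range (⌊x⌋₊ + 1), r a b f n) / Real.log x)
      atTop (𝓝 0) := h1.div_atTop Real.tendsto_log_atTop
  have h3 := (h2.add (mertens.const_mul (1 / 2))).sub (hV.const_mul (1 / 2))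
  have e0 : (0 : ℝ) + 1 / 2 * 1 - 1 / 2 * 0 = 1 / 2 := by norm_num
  rw [e0] at h3
  refine h3.congr fun x => ?_
  have hsum : Sg a b x + Tg a b x = (∑ n ∈ Finset.range (⌊x⌋₊ + 1), r a b f n) +
      1 / 2 * (∑ n ∈ Finset.range (⌊x⌋₊ + 1), (if n.Prime then Real.log n / n else 0 : ℝ)) -
      1 / 2 * (∑ n ∈ Finset.range (⌊x⌋₊ + 1), Pool.Agent.TH941.cr f n * Real.log n) := by
    unfold Sg Tg
    rw [Finset.sum_filter, Finset.sum_filter, ← Finset.sum_add_distrib, Finset.mul_sum,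
      Finset.mul_sum, ← Finset.sum_add_distrib, ← Finset.sum_sub_distrib]
    refine Finset.sum_congr rfl fun n _ => ?_
    unfold r
    by_cases h : GoodPrime a b n
    · rw [if_pos h, if_pos h, if_pos h]
      ring
    · rw [if_neg h, if_neg h, if_neg h]
      ring
  rw [hsum]
  ring

end Pool.Agent.TH270.NG
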