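import Pool.Agent.TH270.NG.RsLog
import Pool.Agent.TH270.NG.NagaoT
import Pool.Agent.TH270.NG.Abel
import Pool.Agent.TH270.MS.EQ4

/-!
# Mestre-Nagao sums in logarithmic mean
-/

set_option autoImplicit false

open MeasureTheory Filter Topology Set Complex
open Pool.Agent.TH942.ES
open Pool.Agent.TH942.LS (Dat)
open Pool.Agent.TH270.RS (cS')
open Pool.Agent.W263.BSD (GoodPrime pointCount IsLSeries bsdProduct bsdStar bsdProduct_pos rsSum LInt)
open Pool.Agent.TH270.MS Pool.Agent.TH270.MS.EQ

namespace Pool.Agent.TH270.NG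

variable {a b : ℤ} {F : ℂ → ℂ}

/-- integrable bounds for the logarithm of the product exclude zeros -/
theorem rh_of_lint (hΔ : 4 * a ^ 3 + 27 * b ^ 2 ≠ 0) (hF : IsLSeries a b F)
    (hrs : Tendsto (rsSum a b) atTop (𝓝 0)) {η C₀ : ℝ} {κ : ℕ} (hη : 0 < η)
    (hg : ∀ s : ℂ, 1 - η < s.re → ‖F s‖ ≤ C₀ * (1 + ‖s‖) ^ κ)
    (hh : ∀ x : ℝ, 0 < x → ∃ h : ℝ → ℝ,
      IntegrableOn (fun u => h u * Real.exp (-(x * u))) (Ioi 1) ∧
      ∀ u : ℝ, 1 < u → |Real.log (bsdProduct a b (Real.exp u))| ≤ h u) :
    ∀ s : ℂ, 1 < s.re → F s ≠ 0 := by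
  have H := curve_mc hF hη hg
  obtain ⟨e, g, p, he, Q⟩ := H.cn
  obtain ⟨M, hM⟩ := product_close hΔ hrs
  obtain ⟨C₁, hC₁, hb1⟩ := er_le Q.D 0 0
  have hEr : ∀ u : ℝ, Er (lamS (nQ a b) e) (cS' (nQ a b) (alQ a b) e) 0 0 u =
      -Pl (nQ a b) (alQ a b) (Real.exp u) := by
    intro u
    rw [← sh_eq H.E he]
    unfold Er
    by_cases hu : u ∈ Ioi (0 : ℝ)
    · rw [indicator_of_mem hu]
      ring
    · rw [indicator_of_notMem hu]
      ring
  have hint : ∀ x : ℝ, 0 < x → LInt (Er (lamS (nQ a b) e) (cS' (nQ a b) (alQ a b) e) 0 0) x := by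
    intro x hx
    obtain ⟨h, hi, hb⟩ := hh x hx
    have hC1e : 0 ≤ C₁ * Real.exp 1 := by positivity
    have h00 := abs_nonneg M
    have h1 : IntegrableOn (fun u : ℝ => (|M| + C₁ * Real.exp 1) * Real.exp (-x * u)) (Ioi 0) :=
      (integrableOn_exp_mul_Ioi (by linarith) 0).const_mul _
    have h2 : IntegrableOn ((Ioi (1 : ℝ)).indicator fun u => |h u * Real.exp (-(x * u))|) (Ioi 0) :=
      ((integrable_indicator_iff measurableSet_Ioi).2 hi.abs).integrableOn
    have h3 : Integrable (fun u : ℝ => (Ioi (1 : ℝ)).indicator (fun u => |h u * Real.exp (-(x * u))|) u +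
        (|M| + C₁ * Real.exp 1) * Real.exp (-x * u)) (volume.restrict (Ioi 0)) := h2.add h1
    refine Integrable.mono' h3 ((er_meas Q.D 0 0).mul (by fun_prop)).aestronglyMeasurable ?_
    filter_upwards [ae_restrict_mem measurableSet_Ioi] with u hu
    have hu0 : 0 < u := hu
    have hexp := Real.exp_pos (-(x * u))
    rw [norm_mul, Real.norm_eq_abs, Real.norm_of_nonneg hexp.le, neg_mul]
    rcases le_or_gt u 1 with h4 | h4
    · rw [indicator_of_notMem (show u ∉ Ioi (1 : ℝ) from not_lt.2 h4), zero_add]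
      refine mul_le_mul_of_nonneg_right ?_ hexp.le
      have h5 := hb1 u
      have h6 : Real.exp (1 * u) ≤ Real.exp 1 := Real.exp_le_exp.2 (by linarith)
      have h7 : C₁ * Real.exp (1 * u) ≤ C₁ * Real.exp 1 := mul_le_mul_of_nonneg_left h6 hC₁
      linarith
    · rw [indicator_of_mem (show u ∈ Ioi (1 : ℝ) from h4), abs_mul, abs_of_pos hexp, ← add_mul]
      refine mul_le_mul_of_nonneg_right ?_ hexp.le
      rw [hEr, abs_neg]
      have hx1 : Real.exp 1 ≤ Real.exp u := Real.exp_le_exp.2 h4.le
      have h5 := hM (Real.exp u) hx1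
      have h6 := hb u h4
      have h7 : |Pl (nQ a b) (alQ a b) (Real.exp u)| ≤
          |Real.log (bsdProduct a b (Real.exp u)) + Pl (nQ a b) (alQ a b) (Real.exp u)| +
            |Real.log (bsdProduct a b (Real.exp u))| := by
        have h8 := abs_sub (Real.log (bsdProduct a b (Real.exp u)) +
          Pl (nQ a b) (alQ a b) (Real.exp u)) (Real.log (bsdProduct a b (Real.exp u)))
        rwa [add_sub_cancel_left] at h8
      have h9 := le_abs_self (h u)
      have h10 := le_abs_self M
      linarith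
  have h1 := (conv (r := 0) (c₀ := 0) Q.D (fun s hs => Q.hG s (by linarith [Q.hη])) Q.hexp Q.hg Q.hg0
    Q.near hint).1
  intro s hs
  have h2 := h1 (s - 1) (by simpa using hs)
  rwa [add_sub_cancel] at h2

theorem int_loglog {x : ℝ} (hx : Real.exp 1 ≤ x) :
    IntervalIntegrable (fun t => Real.log (Real.log t) / t) volume (Real.exp 1) x ∧
    ∫ t in Real.exp 1..x, Real.log (Real.log t) / t =
      Real.log x * Real.log (Real.log x) - Real.log x + 1 := by
  have hi : IntervalIntegrable (fun t => Real.log (Real.log t) / t) volume (Real.exp 1) x :=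
    BM.loglog.li.div x hx
  refine ⟨hi, ?_⟩
  have h1 : ∀ t ∈ uIcc (Real.exp 1) x, HasDerivAt
      (fun t => Real.log t * Real.log (Real.log t) - Real.log t) (Real.log (Real.log t) / t) t := by
    intro t ht
    rw [uIcc_of_le hx] at ht
    have ht0 : 0 < t := (Real.exp_pos 1).trans_le ht.1
    have hl : 0 < Real.log t := by linarith [one_le_log ht.1]
    have d1 := Real.hasDerivAt_log ht0.ne'
    have d2 := d1.log hl.ne'
    have d3 := (d1.mul d2).sub d1
    refine d3.congr_deriv ?_
    field_simp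
    ring
  rw [intervalIntegral.integral_eq_sub_of_hasDerivAt h1 hi]
  simp

/-- the logarithm of the product is integrable near `1` -/
theorem int_small (a b : ℤ) : IntervalIntegrable (fun t => Real.log (bsdProduct a b t) / t) volume 1
    (Real.exp 1) := by
  have he : (1 : ℝ) ≤ Real.exp 1 := by linarith [Real.add_one_le_exp 1]
  have hfun : (fun t => Real.log (bsdProduct a b t) / t) =
      fun t : ℝ => (fun n : ℕ => Real.log (bsdProduct a b (n : ℝ))) ⌊t⌋₊ / t := by
    funext t
    simp only
    congr 2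
    unfold bsdProduct
    rw [Nat.floor_natCast]
  rw [hfun, intervalIntegrable_iff_integrableOn_Ioc_of_le he]
  set K : ℝ := ∑ n ∈ Finset.range 4, |Real.log (bsdProduct a b (n : ℝ))| with hK
  have hm0 : Measurable fun t : ℝ => (fun n : ℕ => Real.log (bsdProduct a b (n : ℝ))) ⌊t⌋₊ :=
    (measurable_from_top (f := fun n : ℕ => Real.log (bsdProduct a b (n : ℝ)))).comp
      Nat.measurable_floor
  have hm : Measurable fun t : ℝ => (fun n : ℕ => Real.log (bsdProduct a b (n : ℝ))) ⌊t⌋₊ / t :=
    hm0.div measurable_id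
  refine Integrable.mono' (g := fun _ => K) (integrableOn_const (by simp)) hm.aestronglyMeasurable ?_
  filter_upwards [ae_restrict_mem measurableSet_Ioc] with t ht
  have ht1 : 1 < t := ht.1
  have h3 : ⌊t⌋₊ < 4 := by
    rw [Nat.floor_lt (by linarith)]
    push_cast
    linarith [ht.2, Real.exp_one_lt_three]
  have h4 : |Real.log (bsdProduct a b (⌊t⌋₊ : ℝ))| ≤ K := by
    rw [hK]
    exact Finset.single_le_sum (f := fun n : ℕ => |Real.log (bsdProduct a b (n : ℝ))|)
      (fun n _ => abs_nonneg _) (Finset.mem_range.2 h3)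
  rw [Real.norm_eq_abs, abs_div, abs_of_pos (by linarith : 0 < t)]
  exact (div_le_self (abs_nonneg _) ht1.le).trans h4

/-- the Mestre-Nagao sum in terms of the deviation of the product -/
theorem T_asymp (m κ : ℝ) {D : ℝ → ℝ} (hD : BM D)
    (hA : ∀ x : ℝ, Real.exp 1 ≤ x →
      Real.log (bsdProduct a b x) = m * Real.log (Real.log x) + κ + D x)
    (h0 : Tendsto (fun X : ℝ => (∫ x in Real.exp 1..X, |D x| / x) / Real.log X) atTop (𝓝 0)) :
    Tendsto (fun x => Tg a b x / Real.log x - m - D x) atTop (𝓝 0) := by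
  have he : (1 : ℝ) ≤ Real.exp 1 := by linarith [Real.add_one_le_exp 1]
  set c1 : ℝ := ∫ t in (1 : ℝ)..Real.exp 1, Real.log (bsdProduct a b t) / t with hc1
  -- the mean of `D`
  have h1 : Tendsto (fun X : ℝ => (∫ x in Real.exp 1..X, D x / x) / Real.log X) atTop (𝓝 0) := by
    refine squeeze_zero_norm' ?_ h0
    filter_upwards [eventually_ge_atTop (Real.exp 1)] with X hX
    have hl : 0 < Real.log X := by linarith [one_le_log hX]
    rw [Real.norm_eq_abs, abs_div, abs_of_pos hl]
    refine div_le_div_of_nonneg_right ?_ hl.le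
    refine (intervalIntegral.abs_integral_le_integral_abs hX).trans (le_of_eq ?_)
    refine intervalIntegral.integral_congr fun x hx => ?_
    rw [uIcc_of_le hX] at hx
    have hx0 : 0 < x := (Real.exp_pos 1).trans_le hx.1
    rw [abs_div, abs_of_pos hx0]
  have h2 : Tendsto (fun x : ℝ => (c1 + m - κ) / Real.log x) atTop (𝓝 0) :=
    Real.tendsto_log_atTop.const_div_atTop _
  have h3 := (h2.add h1).neg
  rw [add_zero, neg_zero] at h3
  refine h3.congr' ?_
  filter_upwards [eventually_ge_atTop (Real.exp 1)] with x hx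
  have hl : 0 < Real.log x := by linarith [one_le_log hx]
  have i1 := (int_loglog hx).1
  have i2 : IntervalIntegrable (fun t : ℝ => (1 : ℝ) / t) volume (Real.exp 1) x :=
    (LI.const 1).div x hx
  have i3 : IntervalIntegrable (fun t => D t / t) volume (Real.exp 1) x := hD.li.div x hx
  have h4 : ∫ t in Real.exp 1..x, Real.log (bsdProduct a b t) / t =
      m * (Real.log x * Real.log (Real.log x) - Real.log x + 1) + κ * (Real.log x - 1) +
        ∫ t in Real.exp 1..x, D t / t := by
    have h5 : ∫ t in Real.exp 1..x, Real.log (bsdProduct a b t) / t =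
        ∫ t in Real.exp 1..x, (m * (Real.log (Real.log t) / t) + κ * (1 / t) + D t / t) := by
      refine intervalIntegral.integral_congr fun t ht => ?_
      rw [uIcc_of_le hx] at ht
      rw [hA t ht.1]
      ring
    rw [h5, intervalIntegral.integral_add ((i1.const_mul m).add (i2.const_mul κ)) i3,
      intervalIntegral.integral_add (i1.const_mul m) (i2.const_mul κ),
      intervalIntegral.integral_const_mul, intervalIntegral.integral_const_mul,
      (int_loglog hx).2, int_inv hx]
  have i4 : IntervalIntegrable (fun t => Real.log (bsdProduct a b t) / t) volume (Real.exp 1) x :=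
    (bm_product a b).li.div x hx
  have h6 := abel1 a b (he.trans hx)
  rw [← intervalIntegral.integral_add_adjacent_intervals (int_small a b) i4, ← hc1, h4,
    hA x hx] at h6
  rw [h6]
  field_simp
  ring

end Pool.Agent.TH270.NG
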