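import Pool.Agent.TH941.Newform

/-!
# Mestre-Nagao sums: definitions
-/

set_option autoImplicit false

open Pool.Agent.W263.BSD (GoodPrime pointCount bsdProduct)
open scoped Classical

namespace Pool.Agent.TH270.NG

/-- the sum of `a_p log p / p` over the good primes `p ≤ x` -/
noncomputable def Sg (a b : ℤ) (x : ℝ) : ℝ :=
  ∑ p ∈ (Finset.range (⌊x⌋₊ + 1)).filter (GoodPrime a b),
    ((p : ℝ) - pointCount a b p) * Real.log p / p

/-- the sum of `log ((N_p + 1) / p) log p` over the good primes `p ≤ x` -/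
noncomputable def Tg (a b : ℤ) (x : ℝ) : ℝ :=
  ∑ p ∈ (Finset.range (⌊x⌋₊ + 1)).filter (GoodPrime a b),
    Real.log (((pointCount a b p : ℝ) + 1) / p) * Real.log p

end Pool.Agent.TH270.NG
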