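import Pool.Agent.TH270.NG.Core

/-!
# The law for Mestre-Nagao sums
-/

set_option autoImplicit false

open MeasureTheory Filter Topology Set
open scoped ENNReal
open Pool.Agent.W263.BSD (GoodPrime pointCount IsLSeries bsdProduct bsdStar bsdProduct_pos rsSum LInt)
open Pool.Agent.TH270.MS Pool.Agent.TH270.MS.EQ

namespace Pool.Agent.TH270.NG

variable {a b : ℤ} {F : ℂ → ℂ}

/-- from linear bounds for the means to Laplace integrals -/
theorem lint_of_mean {G : ℝ → ℝ} (hm : Measurable G)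
    (hb : ∀ U : ℝ, ∃ M : ℝ, ∀ u : ℝ, 1 ≤ u → u ≤ U → |G u| ≤ M) {B : ℝ}
    (h : ∀ᶠ T : ℝ in atTop, ∫ u in (1 : ℝ)..T, |G u| ≤ B * T) {x : ℝ} (hx : 0 < x) :
    IntegrableOn (fun u => |G u| * Real.exp (-(x * u))) (Ioi 1) := by
  have hi : ∀ T : ℝ, IntegrableOn G (Ioc 1 T) := by
    intro T
    obtain ⟨M, hM⟩ := hb T
    refine Integrable.mono' (g := fun _ => M) (integrableOn_const (by simp))
      hm.aestronglyMeasurable ?_
    filter_upwards [ae_restrict_mem measurableSet_Ioc] with u hu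
    rw [Real.norm_eq_abs]
    exact hM u hu.1.le hu.2
  obtain ⟨T₀, hT₀⟩ := h.exists_forall_of_atTop
  set T₁ : ℝ := max T₀ 1 with hT₁
  set b₁ : ℝ := ∫ u in (1 : ℝ)..T₁, |G u| with hb₁
  have hb0 : 0 ≤ b₁ := intervalIntegral.integral_nonneg (le_max_right _ _) fun u _ => abs_nonneg _
  have hlin : ∀ T : ℝ, 1 ≤ T → ∫⁻ u in Ioc 1 T, ‖G u‖ₑ ≤ ENNReal.ofReal (|B| * T + b₁) := by
    intro T hT
    have h1 : ∫⁻ u in Ioc 1 T, ‖G u‖ₑ = ENNReal.ofReal (∫ u in (1 : ℝ)..T, |G u|) := by
      rw [intervalIntegral.integral_of_le hT,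
        ofReal_integral_eq_lintegral_ofReal (hi T).abs (Eventually.of_forall fun u => abs_nonneg _)]
      refine lintegral_congr fun u => ?_
      rw [← Real.norm_eq_abs, ofReal_norm]
    rw [h1]
    apply ENNReal.ofReal_le_ofReal
    have h00 : 0 ≤ |B| * T := by positivity
    rcases le_or_gt T T₁ with h2 | h2
    · have h3 : ∫ u in (1 : ℝ)..T, |G u| ≤ b₁ := by
        rw [hb₁]
        refine intervalIntegral.integral_mono_interval le_rfl hT h2
          (Eventually.of_forall fun u => abs_nonneg _) ?_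
        rw [intervalIntegrable_iff_integrableOn_Ioc_of_le (hT.trans h2)]
        exact (hi T₁).abs
      linarith
    · have h3 := hT₀ T ((le_max_left _ _).trans h2.le)
      have h4 : B * T ≤ |B| * T := mul_le_mul_of_nonneg_right (le_abs_self B) (by linarith)
      linarith
  have hkey : ∫⁻ u in Ioi (1 : ℝ), ‖|G u| * Real.exp (-(x * u))‖ₑ ≤
      ENNReal.ofReal (|B| / x + b₁) := by
    have h1 := abel_lin (f := fun u => ‖G u‖ₑ) hm.enorm (abs_nonneg B) hb0 hlin hx
    refine le_trans (le_of_eq ?_) h1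
    refine lintegral_congr fun u => ?_
    have h2 : ‖|G u|‖ₑ = ‖G u‖ₑ := by
      rw [← ofReal_norm, ← ofReal_norm, Real.norm_eq_abs, abs_abs, Real.norm_eq_abs]
    rw [enorm_mul, ← ofReal_norm (Real.exp _), Real.norm_of_nonneg (Real.exp_pos _).le, h2]
  have hmm : Measurable fun u : ℝ => |G u| * Real.exp (-(x * u)) := by fun_prop
  exact ⟨hmm.aestronglyMeasurable, hkey.trans_lt ENNReal.ofReal_lt_top⟩

theorem meas_Tg (a b : ℤ) : Measurable (Tg a b) := by
  have h1 : Tg a b = fun x : ℝ => (fun n : ℕ => Tg a b (n : ℝ)) ⌊x⌋₊ := by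
    funext x
    unfold Tg
    simp only [Nat.floor_natCast]
  rw [h1]
  exact (measurable_from_top (f := fun n : ℕ => Tg a b (n : ℝ))).comp Nat.measurable_floor

theorem meas_Sg (a b : ℤ) : Measurable (Sg a b) := by
  have h1 : Sg a b = fun x : ℝ => (fun n : ℕ => Sg a b (n : ℝ)) ⌊x⌋₊ := by
    funext x
    unfold Sg
    simp only [Nat.floor_natCast]
  rw [h1]
  exact (measurable_from_top (f := fun n : ℕ => Sg a b (n : ℝ))).comp Nat.measurable_floor

theorem bm_floor {g : ℝ → ℝ} (hg : ∀ x : ℝ, 0 ≤ x → g x = g (⌊x⌋₊ : ℝ)) (hm : Measurable g) :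
    BM g := by
  refine ⟨hm.aestronglyMeasurable, fun Y => ⟨∑ n ∈ Finset.range (⌊Y⌋₊ + 1), |g (n : ℝ)|,
    fun y h1 h2 => ?_⟩⟩
  have h0 : 0 ≤ y := (Real.exp_pos 1).le.trans h1
  rw [hg y h0]
  refine Finset.single_le_sum (f := fun n : ℕ => |g (n : ℝ)|) (fun n _ => abs_nonneg _) ?_
  rw [Finset.mem_range]
  exact Nat.lt_succ_of_le (Nat.floor_le_floor h2)

theorem bm_Tg (a b : ℤ) : BM (Tg a b) := by
  refine bm_floor (fun x _ => ?_) (meas_Tg a b)
  unfold Tg
  rw [Nat.floor_natCast]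

theorem bm_Sg (a b : ℤ) : BM (Sg a b) := by
  refine bm_floor (fun x _ => ?_) (meas_Sg a b)
  unfold Sg
  rw [Nat.floor_natCast]

theorem bm_inv : BM fun x => 1 / Real.log x := by
  refine ⟨(measurable_const.div Real.measurable_log).aestronglyMeasurable, fun Y => ⟨1,
    fun y h1 _ => ?_⟩⟩
  have h3 := one_le_log h1
  rw [abs_of_nonneg (by positivity), div_le_one (by linarith)]
  exact h3

theorem bm_div {g : ℝ → ℝ} (hg : BM g) : BM fun x => g x / Real.log x := by
  have := hg.mul bm_inv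
  simpa only [mul_one_div] using this

/-- convergent functions which are locally bounded are bounded on the half line -/
theorem bm_bdd {g : ℝ → ℝ} (hg : BM g) {L : ℝ} (h : Tendsto g atTop (𝓝 L)) :
    ∃ M : ℝ, ∀ x : ℝ, Real.exp 1 ≤ x → |g x| ≤ M := by
  obtain ⟨Y₀, hY₀⟩ := (Metric.tendsto_atTop.1 h) 1 one_pos
  obtain ⟨M₀, hM₀⟩ := hg.2 Y₀
  refine ⟨|M₀| + (1 + |L|), fun x hx => ?_⟩
  rcases le_or_gt x Y₀ with h1 | h1
  · have h3 := hM₀ x hx h1
    have h4 := le_abs_self M₀
    have h5 := abs_nonneg L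
    linarith
  · have h3 := hY₀ x h1.le
    rw [Real.dist_eq] at h3
    have h4 := abs_sub_abs_le_abs_sub (g x) L
    have h5 := abs_nonneg M₀
    linarith

/-- from bounds for the means of `T / log` to the non-vanishing -/
theorem rh_of_mean (hΔ : 4 * a ^ 3 + 27 * b ^ 2 ≠ 0) (hF : IsLSeries a b F)
    (hrs : Tendsto (rsSum a b) atTop (𝓝 0)) {η C₀ : ℝ} {κ : ℕ} (hη : 0 < η)
    (hg : ∀ s : ℂ, 1 - η < s.re → ‖F s‖ ≤ C₀ * (1 + ‖s‖) ^ κ)
    (hb : ∃ B : ℝ, ∀ᶠ X : ℝ in atTop, ∫ x in Real.exp 1..X, |Tg a b x / Real.log x| / x ≤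
      B * Real.log X) : ∀ s : ℂ, 1 < s.re → F s ≠ 0 := by
  obtain ⟨B, hB⟩ := hb
  obtain ⟨K, hK⟩ := abel2 a b
  have bmT := bm_div (bm_Tg a b)
  obtain ⟨Y₀, hY₀⟩ := hB.exists_forall_of_atTop
  set Y₁ : ℝ := max Y₀ (Real.exp 1) with hY₁
  have hY1e : Real.exp 1 ≤ Y₁ := le_max_right _ _
  have hii : ∀ Y : ℝ, Real.exp 1 ≤ Y → IntervalIntegrable
      (fun x => |Tg a b x / Real.log x| / x) volume (Real.exp 1) Y := fun Y hY =>
    bmT.li.abs.div Y hY
  -- the integral of `|T|/(t log² t)`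
  have hI : ∀ x : ℝ, Real.exp 1 ≤ x → ∫ t in Real.exp 1..x, |Tg a b t| / (t * Real.log t ^ 2) ≤
      |B| * Real.log Y₁ + |B| * Real.log x := by
    intro x hx
    have hl := one_le_log hx
    have hl1 := one_le_log hY1e
    have h1 : ∫ t in Real.exp 1..x, |Tg a b t| / (t * Real.log t ^ 2) ≤
        ∫ t in Real.exp 1..x, |Tg a b t / Real.log t| / t := by
      have bmq : BM fun t => |Tg a b t| / Real.log t ^ 2 := by
        have h2 := (bm_div (bm_div (bm_Tg a b)))
        refine ⟨((measurable_abs.comp (meas_Tg a b)).div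
          (Real.measurable_log.pow_const 2)).aestronglyMeasurable, fun Y => ?_⟩
        obtain ⟨M, hM⟩ := h2.2 Y
        refine ⟨M, fun y h3 h4 => ?_⟩
        have h5 : |Tg a b y / Real.log y / Real.log y| ≤ M := hM y h3 h4
        rw [div_div, abs_div, ← sq, abs_of_nonneg (sq_nonneg (Real.log y))] at h5
        rwa [abs_div, abs_abs, abs_of_nonneg (sq_nonneg (Real.log y))]
      refine intervalIntegral.integral_mono_on hx ?_ (hii x hx) fun t ht => ?_
      · refine (bmq.li.div x hx).congr_ae ?_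
        refine Eventually.of_forall fun t => ?_
        show |Tg a b t| / Real.log t ^ 2 / t = |Tg a b t| / (t * Real.log t ^ 2)
        rw [div_div, mul_comm]
      · have ht0 : 0 < t := (Real.exp_pos 1).trans_le ht.1
        have hlt := one_le_log ht.1
        rw [abs_div, abs_of_pos (by linarith : 0 < Real.log t), div_div]
        refine div_le_div_of_nonneg_left (abs_nonneg _) (by positivity) ?_
        nlinarith [mul_nonneg ht0.le (mul_nonneg (by linarith : 0 ≤ Real.log t)
          (by linarith : 0 ≤ Real.log t - 1))]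
    refine h1.trans ?_
    rcases le_or_gt x Y₁ with h2 | h2
    · have h3 : ∫ t in Real.exp 1..x, |Tg a b t / Real.log t| / t ≤
          ∫ t in Real.exp 1..Y₁, |Tg a b t / Real.log t| / t := by
        refine intervalIntegral.integral_mono_interval le_rfl hx h2 ?_ (hii Y₁ hY1e)
        filter_upwards [ae_restrict_mem measurableSet_Ioc] with t ht
        have : 0 < t := (Real.exp_pos 1).trans ht.1
        show 0 ≤ |Tg a b t / Real.log t| / t
        positivity
      have h4 := hY₀ Y₁ (le_max_left _ _)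
      have h5 : B * Real.log Y₁ ≤ |B| * Real.log Y₁ :=
        mul_le_mul_of_nonneg_right (le_abs_self B) (by linarith)
      have h6 : 0 ≤ |B| * Real.log x := by positivity
      linarith
    · have h4 := hY₀ x ((le_max_left _ _).trans h2.le)
      have h5 : B * Real.log x ≤ |B| * Real.log x :=
        mul_le_mul_of_nonneg_right (le_abs_self B) (by linarith)
      have h6 : 0 ≤ |B| * Real.log Y₁ := by positivity
      linarith
  refine rh_of_lint hΔ hF hrs hη hg fun x hx => ?_
  set G : ℝ → ℝ := fun u => Tg a b (Real.exp u) / u with hG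
  have hGm : Measurable G := ((meas_Tg a b).comp Real.measurable_exp).div measurable_id
  have hGb : ∀ U : ℝ, ∃ M : ℝ, ∀ u : ℝ, 1 ≤ u → u ≤ U → |G u| ≤ M := by
    intro U
    obtain ⟨M, hM⟩ := bmT.2 (Real.exp U)
    refine ⟨M, fun u h1 h2 => ?_⟩
    have h3 : |Tg a b (Real.exp u) / Real.log (Real.exp u)| ≤ M :=
      hM (Real.exp u) (Real.exp_le_exp.2 h1) (Real.exp_le_exp.2 h2)
    rwa [Real.log_exp] at h3
  have hGl : ∀ᶠ T : ℝ in atTop, ∫ u in (1 : ℝ)..T, |G u| ≤ B * T := by
    have h1 := Real.tendsto_exp_atTop.eventually hB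
    filter_upwards [h1, eventually_ge_atTop 1] with T h2 hT
    rw [Real.log_exp] at h2
    refine le_trans (le_of_eq ?_) h2
    rw [← cov_ii (fun u => |G u|) hT]
    refine intervalIntegral.integral_congr fun t ht => ?_
    rw [uIcc_of_le (Real.exp_le_exp.2 hT)] at ht
    have ht0 : 0 < t := (Real.exp_pos 1).trans_le ht.1
    show |Tg a b (Real.exp (Real.log t)) / Real.log t| / t = |Tg a b t / Real.log t| / t
    rw [Real.exp_log ht0]
  have h1 := lint_of_mean hGm hGb hGl hx
  have h2 : IntegrableOn (fun u : ℝ => (K + |B| * Real.log Y₁) * Real.exp (-(x * u))) (Ioi 1) := by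
    have h20 : IntegrableOn (fun u : ℝ => (K + |B| * Real.log Y₁) * Real.exp (-x * u)) (Ioi 1) :=
      (integrableOn_exp_mul_Ioi (a := -x) (by linarith) 1).const_mul (K + |B| * Real.log Y₁)
    refine h20.congr_fun (fun u _ => ?_) measurableSet_Ioi
    simp only [neg_mul]
  have h3 : IntegrableOn (fun u : ℝ => |u| * Real.exp (-(x * u))) (Ioi 1) := by
    have h30 : IntegrableOn (fun u : ℝ => 2 / x * Real.exp (-(x / 2) * u)) (Ioi 1) :=
      (integrableOn_exp_mul_Ioi (a := -(x / 2)) (by linarith) 1).const_mul _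
    have h31 : Measurable fun u : ℝ => |u| * Real.exp (-(x * u)) := by fun_prop
    refine Integrable.mono' h30 h31.aestronglyMeasurable ?_
    filter_upwards [ae_restrict_mem measurableSet_Ioi] with u hu
    have hu0 : 0 < u := lt_trans one_pos hu
    rw [norm_mul, Real.norm_eq_abs, abs_abs, abs_of_pos hu0, Real.norm_of_nonneg (Real.exp_pos _).le]
    have h32 : u ≤ 2 / x * Real.exp (x / 2 * u) := by
      have h33 := Real.add_one_le_exp (x / 2 * u)
      have h34 : 2 / x * (x / 2 * u) = u := by field_simp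
      have h35 : 2 / x * (x / 2 * u) ≤ 2 / x * Real.exp (x / 2 * u) :=
        mul_le_mul_of_nonneg_left (by linarith) (by positivity)
      linarith
    calc u * Real.exp (-(x * u)) ≤ 2 / x * Real.exp (x / 2 * u) * Real.exp (-(x * u)) :=
          mul_le_mul_of_nonneg_right h32 (Real.exp_pos _).le
      _ = _ := by
        rw [mul_assoc, ← Real.exp_add]
        ring_nf
  refine ⟨fun u => |G u| + (K + |B| * Real.log Y₁) + |B| * |u|, ?_, fun u hu => ?_⟩
  · have h4 : IntegrableOn (fun u => |G u| * Real.exp (-(x * u)) +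
        (K + |B| * Real.log Y₁) * Real.exp (-(x * u)) + |B| * (|u| * Real.exp (-(x * u)))) (Ioi 1) :=
      (h1.add h2).add (h3.const_mul |B|)
    refine h4.congr_fun (fun u _ => ?_) measurableSet_Ioi
    ring
  · have hx1 : Real.exp 1 ≤ Real.exp u := Real.exp_le_exp.2 hu.le
    have h5 := hK (Real.exp u) hx1
    have h6 := hI (Real.exp u) hx1
    rw [Real.log_exp] at h5 h6
    have h7 : |G u| = |Tg a b (Real.exp u)| / u := by
      show |Tg a b (Real.exp u) / u| = _
      rw [abs_div, abs_of_pos (by linarith : 0 < u)]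
    show _ ≤ |G u| + (K + |B| * Real.log Y₁) + |B| * |u|
    rw [h7, abs_of_pos (by linarith : 0 < u)]
    linarith

end Pool.Agent.TH270.NG
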