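import Pool.Agent.TH270.NG.Law

/-!
# The law for Mestre-Nagao sums: conclusion
-/

set_option autoImplicit false

open MeasureTheory Filter Topology Set
open scoped ENNReal
open Pool.Agent.W263.BSD (GoodPrime pointCount IsLSeries bsdProduct bsdStar bsdProduct_pos rsSum LInt)
open Pool.Agent.TH270.MS Pool.Agent.TH270.MS.EQ
open CongruenceSubgroup
open scoped MatrixGroups

namespace Pool.Agent.TH270.NG

variable {a b : ℤ} {F : ℂ → ℂ}

/-- what the mean square law gives under the Riemann hypothesis -/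
theorem pack (hΔ : 4 * a ^ 3 + 27 * b ^ 2 ≠ 0) (hF : IsLSeries a b F)
    (hrs : Tendsto (rsSum a b) atTop (𝓝 0)) {η C₀ : ℝ} {κ : ℕ} (hη : 0 < η)
    (hg : ∀ s : ℂ, 1 - η < s.re → ‖F s‖ ≤ C₀ * (1 + ‖s‖) ^ κ) (hz : ∀ s : ℂ, 1 < s.re → F s ≠ 0)
    {m : ℕ} (hm : analyticOrderAt F 1 = m) :
    ∃ C' : ℝ, 0 < C' ∧
      Tendsto (fun X : ℝ => (∫ x in Real.exp 1..X, |dev a b (m : ℝ) C' x| / x) / Real.log X) atTop
        (𝓝 0) ∧
      IntegrableOn (fun x : ℝ => devStar a b (m : ℝ) C' x ^ 2 / x) (Ioi (Real.exp 1)) ∧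
      Tendsto (fun x => dev a b (m : ℝ) C' x - devStar a b (m : ℝ) C' x) atTop (𝓝 0) ∧
      ∃ S : Set ℝ, MeasurableSet S ∧ ∫⁻ x in S, ENNReal.ofReal (1 / x) < ⊤ ∧
        Tendsto (dev a b (m : ℝ) C') (atTop ⊓ 𝓟 Sᶜ) (𝓝 0) := by
  have H := curve_mc hF hη hg
  have hz' : ∀ s : ℂ, 0 < s.re → F (1 + s) ≠ 0 := fun s hs => hz _ (by simpa using hs)
  have t : ((∀ s : ℂ, 0 < s.re → F (1 + s) ≠ 0) ∧ ∃ n : ℕ, (m : ℝ) = n ∧
      meromorphicOrderAt (fun s => F (1 + s)) 0 = (n : ℤ)) ↔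
      ∃ A : ℝ, 0 < A ∧ IntegrableOn (fun Y : ℝ => DvR (nQ a b) (alQ a b) (m : ℝ) A Y ^ 2 / Y)
        (Ioi (Real.exp 1)) := (H.tfae_order_real (m : ℝ)).out 0 1
  obtain ⟨A, hA, h1⟩ := t.1 ⟨hz', m, rfl, (mero_iff hF).2 hm⟩
  obtain ⟨-, m', hm', h2⟩ := ((H.tfae_lead_real (m : ℝ) hA).out 0 1).2 h1
  have hmm : m = m' := by exact_mod_cast hm'
  subst hmm
  have hlead := ((lim_iff hF (by exact_mod_cast hA.ne')).1 h2).2
  set C' : ℝ := √2 * Real.exp (m * Real.eulerMascheroniConstant) / A with hC'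
  have hC'0 : 0 < C' := by positivity
  have h4 : (√2 * Real.exp (m * Real.eulerMascheroniConstant) / C' : ℝ) = A := by
    have := Real.exp_pos ((m : ℝ) * Real.eulerMascheroniConstant)
    rw [hC']
    field_simp
  have t2 : ((∀ s : ℂ, 1 < s.re → F s ≠ 0) ∧ ∃ m' : ℕ, (m : ℝ) = m' ∧ analyticOrderAt F 1 = m' ∧
        iteratedDeriv m' F 1 / (m'.factorial : ℂ) =
          ((√2 * Real.exp (m' * Real.eulerMascheroniConstant) / C' : ℝ) : ℂ)) ↔
        IntegrableOn (fun x : ℝ => devStar a b (m : ℝ) C' x ^ 2 / x) (Ioi (Real.exp 1)) :=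
      (curve_law hΔ hF hrs hη hg (m : ℝ) hC'0).out 0 3
  have t3 : Tendsto (fun X : ℝ => (∫ x in Real.exp 1..X, |dev a b (m : ℝ) C' x| / x) / Real.log X)
        atTop (𝓝 0) ↔
        IntegrableOn (fun x : ℝ => devStar a b (m : ℝ) C' x ^ 2 / x) (Ioi (Real.exp 1)) :=
      (curve_law hΔ hF hrs hη hg (m : ℝ) hC'0).out 1 3
  have h5 := t2.1 ⟨hz, m, rfl, hm, by rw [h4]; exact hlead⟩
  have h6 : Tendsto (fun x => dev a b (m : ℝ) C' x - devStar a b (m : ℝ) C' x) atTop (𝓝 0) := by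
    have h7 := (corr_lim hΔ hrs).const_sub (-(Real.log 2 / 2))
    rw [sub_self] at h7
    refine h7.congr' ?_
    filter_upwards [eventually_ge_atTop (Real.exp 1)] with x hx
    rw [dev_eq hC'0 hx, devStar_eq hC'0 hx]
    ring
  obtain ⟨S, -, hS1, hS2, hS3⟩ := exc_of_sq (bm_devStar a b (ρ := (m : ℝ)) hC'0).1 h5
  refine ⟨C', hC'0, t3.2 h5, h5, h6, S, hS1, hS2, ?_⟩
  have h8 := (h6.mono_left inf_le_left).add hS3
  rw [add_zero] at h8
  refine h8.congr fun x => ?_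
  ring

section

variable {N : ℕ} [NeZero N] {f : CuspForm (Gamma0 N : Subgroup (GL (Fin 2) ℝ)) 2}

/-- `S + T = (1/2 + o(1)) log` -/
theorem sum_lim (hf : Pool.Agent.TH941.Hecke f) (hΔ : 4 * a ^ 3 + 27 * b ^ 2 ≠ 0)
    (hb : Pool.Agent.TH941.Belongs a b f) :
    Tendsto (fun x : ℝ => (Sg a b x + Tg a b x) / Real.log x) atTop (𝓝 (1 / 2)) := by
  obtain ⟨C, hC⟩ := hf.cr_limit
  exact nagao_T hf hΔ hb (rs_log hf.ps hC)

/-- the Mestre-Nagao sum is minus the deviation of the product -/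
theorem nag_dev (hf : Pool.Agent.TH941.Hecke f) (hΔ : 4 * a ^ 3 + 27 * b ^ 2 ≠ 0)
    (hb : Pool.Agent.TH941.Belongs a b f) {m C' : ℝ} (hC' : 0 < C')
    (h0 : Tendsto (fun X : ℝ => (∫ x in Real.exp 1..X, |dev a b m C' x| / x) / Real.log X) atTop
        (𝓝 0)) :
    Tendsto (fun x : ℝ => (Sg a b x / Real.log x - (1 / 2 - m)) + dev a b m C' x) atTop (𝓝 0) := by
  have h1 := T_asymp (a := a) (b := b) m (Real.log C') (bm_dev a b hC')
    (fun x hx => by rw [dev_eq hC' hx]; ring) h0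
  have h2 := (sum_lim hf hΔ hb).sub h1
  have h3 := h2.sub_const (1 / 2)
  rw [sub_zero, sub_self] at h3
  refine h3.congr fun x => ?_
  rw [add_div]
  ring

/-- `S + T = O(log)` -/
theorem sum_bdd (hf : Pool.Agent.TH941.Hecke f) (hΔ : 4 * a ^ 3 + 27 * b ^ 2 ≠ 0)
    (hb : Pool.Agent.TH941.Belongs a b f) :
    ∃ M : ℝ, 0 ≤ M ∧ ∀ x : ℝ, Real.exp 1 ≤ x → |Sg a b x / Real.log x - -(Tg a b x / Real.log x)| ≤ M := by
  obtain ⟨M, hM⟩ := bm_bdd (bm_div ((bm_Sg a b).add (bm_Tg a b))) (sum_lim hf hΔ hb)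
  refine ⟨M, (abs_nonneg _).trans (hM _ le_rfl), fun x hx => ?_⟩
  have h1 : Sg a b x / Real.log x - -(Tg a b x / Real.log x) = (Sg a b x + Tg a b x) / Real.log x := by
    rw [add_div]
    ring
  rw [h1]
  exact hM x hx

/-- bounded means -/
theorem bdd_law (hf : Pool.Agent.TH941.Hecke f) (hΔ : 4 * a ^ 3 + 27 * b ^ 2 ≠ 0)
    (hb : Pool.Agent.TH941.Belongs a b f) (hF : IsLSeries a b F)
    (hrs : Tendsto (rsSum a b) atTop (𝓝 0)) {η C₀ : ℝ} {κ : ℕ} (hη : 0 < η)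
    (hg : ∀ s : ℂ, 1 - η < s.re → ‖F s‖ ≤ C₀ * (1 + ‖s‖) ^ κ)
    (h : ∃ B : ℝ, ∀ᶠ X : ℝ in atTop, ∫ x in Real.exp 1..X, |Sg a b x / Real.log x| / x ≤
      B * Real.log X) : ∀ s : ℂ, 1 < s.re → F s ≠ 0 := by
  obtain ⟨M, -, hM⟩ := sum_bdd hf hΔ hb
  have h1 := bmean_of (bm_div (bm_Sg a b)).li (bm_div (bm_Tg a b)).neg.li hM h
  simp only [abs_neg] at h1
  exact rh_of_mean hΔ hF hrs hη hg h1

end

/-- growth of `T` from growth of the logarithm of the product -/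
theorem T_growth (h : ∀ ε : ℝ, 0 < ε → ∃ C : ℝ, ∀ x : ℝ, 1 ≤ x →
      |Real.log (bsdProduct a b x)| ≤ C * x ^ ε) {ε : ℝ} (hε : 0 < ε) :
    ∃ C : ℝ, 0 ≤ C ∧ ∀ x : ℝ, Real.exp 1 ≤ x → |Tg a b x| ≤ C * x ^ ε := by
  have he : (1 : ℝ) ≤ Real.exp 1 := by linarith [Real.add_one_le_exp 1]
  obtain ⟨C, hC⟩ := h (ε / 2) (by positivity)
  have hC0 : 0 ≤ C := by
    have := (abs_nonneg _).trans (hC 1 le_rfl)
    rwa [Real.one_rpow, mul_one] at this
  refine ⟨C * (2 / ε) + C * (2 / ε), by positivity, fun x hx => ?_⟩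
  have hx1 : 1 ≤ x := he.trans hx
  have hx0 : 0 < x := by linarith
  have hl : 0 < Real.log x := by linarith [one_le_log hx]
  rw [abel1 a b hx1]
  have h1 : |Real.log (bsdProduct a b x) * Real.log x| ≤ C * (2 / ε) * x ^ ε := by
    rw [abs_mul, abs_of_pos hl]
    have h2 : Real.log x ≤ x ^ (ε / 2) / (ε / 2) := Real.log_le_rpow_div hx0.le (by positivity)
    calc _ ≤ C * x ^ (ε / 2) * (x ^ (ε / 2) / (ε / 2)) :=
          mul_le_mul (hC x hx1) h2 hl.le (by positivity)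
      _ = C * (2 / ε) * (x ^ (ε / 2) * x ^ (ε / 2)) := by
        field_simp
      _ = _ := by
        rw [← Real.rpow_add hx0]
        ring_nf
  have hi : IntervalIntegrable (fun t : ℝ => C * t ^ (ε / 2 - 1)) volume 1 x :=
    (intervalIntegral.intervalIntegrable_rpow' (by linarith)).const_mul C
  have h3 : |∫ t in (1 : ℝ)..x, Real.log (bsdProduct a b t) / t| ≤ C * (2 / ε) * x ^ ε := by
    have h4 : ‖∫ t in (1 : ℝ)..x, Real.log (bsdProduct a b t) / t‖ ≤
        ∫ t in (1 : ℝ)..x, C * t ^ (ε / 2 - 1) := by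
      refine intervalIntegral.norm_integral_le_of_norm_le hx1 ?_ hi
      refine Eventually.of_forall fun t ht => ?_
      have ht1 : 1 < t := ht.1
      have ht0 : 0 < t := by linarith
      rw [Real.norm_eq_abs, abs_div, abs_of_pos ht0, Real.rpow_sub_one ht0.ne', ← mul_div_assoc]
      exact div_le_div_of_nonneg_right (hC t ht1.le) ht0.le
    rw [Real.norm_eq_abs, intervalIntegral.integral_const_mul,
      integral_rpow (Or.inl (by linarith))] at h4
    refine h4.trans ?_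
    have h5 : (x ^ (ε / 2 - 1 + 1) - 1 ^ (ε / 2 - 1 + 1)) / (ε / 2 - 1 + 1) ≤ 2 / ε * x ^ ε := by
      rw [sub_add_cancel, Real.one_rpow]
      have h6 : x ^ (ε / 2) ≤ x ^ ε := Real.rpow_le_rpow_of_exponent_le hx1 (by linarith)
      calc (x ^ (ε / 2) - 1) / (ε / 2) ≤ x ^ ε / (ε / 2) :=
            div_le_div_of_nonneg_right (by linarith) (by positivity)
        _ = _ := by field_simp
    calc C * _ ≤ C * (2 / ε * x ^ ε) := mul_le_mul_of_nonneg_left h5 hC0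
      _ = _ := by ring
  refine (abs_sub _ _).trans ?_
  rw [add_mul]
  exact add_le_add h1 h3

/-- the growth of `T` excludes zeros -/
theorem rh_of_T (hΔ : 4 * a ^ 3 + 27 * b ^ 2 ≠ 0) (hF : IsLSeries a b F)
    (hrs : Tendsto (rsSum a b) atTop (𝓝 0)) {η C₀ : ℝ} {κ : ℕ} (hη : 0 < η)
    (hg : ∀ s : ℂ, 1 - η < s.re → ‖F s‖ ≤ C₀ * (1 + ‖s‖) ^ κ)
    (h : ∀ ε : ℝ, 0 < ε → ∃ C : ℝ, 0 ≤ C ∧ ∀ x : ℝ, Real.exp 1 ≤ x → |Tg a b x| ≤ C * x ^ ε) :
    ∀ s : ℂ, 1 < s.re → F s ≠ 0 := by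
  obtain ⟨K, hK⟩ := abel2 a b
  refine rh_of_lint hΔ hF hrs hη hg fun x hx => ?_
  obtain ⟨C, hC0, hC⟩ := h (x / 2) (by positivity)
  refine ⟨fun u => (C + |K| + C / (x / 2)) * Real.exp (x / 2 * u), ?_, fun u hu => ?_⟩
  · have h1 : IntegrableOn (fun u : ℝ => (C + |K| + C / (x / 2)) * Real.exp (-(x / 2) * u))
        (Ioi 1) := (integrableOn_exp_mul_Ioi (a := -(x / 2)) (by linarith) 1).const_mul _
    refine h1.congr_fun (fun u _ => ?_) measurableSet_Ioi
    show (C + |K| + C / (x / 2)) * Real.exp (-(x / 2) * u) =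
      (C + |K| + C / (x / 2)) * Real.exp (x / 2 * u) * Real.exp (-(x * u))
    rw [mul_assoc, ← Real.exp_add]
    ring_nf
  · have hx1 : Real.exp 1 ≤ Real.exp u := Real.exp_le_exp.2 hu.le
    have hpw : Real.exp u ^ (x / 2) = Real.exp (x / 2 * u) := by
      rw [← Real.exp_mul, mul_comm]
    have h5 := hK (Real.exp u) hx1
    have h6 := hC (Real.exp u) hx1
    rw [Real.log_exp] at h5
    rw [hpw] at h6
    have h7 : |Tg a b (Real.exp u)| / u ≤ C * Real.exp (x / 2 * u) :=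
      (div_le_self (abs_nonneg _) hu.le).trans h6
    have hi : IntervalIntegrable (fun t : ℝ => C * t ^ (x / 2 - 1)) volume (Real.exp 1)
        (Real.exp u) := (intervalIntegral.intervalIntegrable_rpow' (by linarith)).const_mul C
    have h8 : ∫ t in Real.exp 1..Real.exp u, |Tg a b t| / (t * Real.log t ^ 2) ≤
        C / (x / 2) * Real.exp (x / 2 * u) := by
      have h9 : ∫ t in Real.exp 1..Real.exp u, |Tg a b t| / (t * Real.log t ^ 2) ≤
          ∫ t in Real.exp 1..Real.exp u, C * t ^ (x / 2 - 1) := by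
        refine (le_abs_self _).trans ?_
        rw [← Real.norm_eq_abs]
        refine intervalIntegral.norm_integral_le_of_norm_le hx1 ?_ hi
        refine Eventually.of_forall fun t ht => ?_
        have ht1 : Real.exp 1 < t := ht.1
        have ht0 : 0 < t := (Real.exp_pos 1).trans ht1
        have hlt := one_le_log ht1.le
        rw [Real.norm_eq_abs, abs_div, abs_abs, abs_of_pos (by positivity : 0 < t * Real.log t ^ 2)]
        calc |Tg a b t| / (t * Real.log t ^ 2) ≤ |Tg a b t| / t := by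
              refine div_le_div_of_nonneg_left (abs_nonneg _) ht0 ?_
              exact le_mul_of_one_le_right ht0.le (one_le_pow₀ hlt)
          _ ≤ C * t ^ (x / 2) / t := div_le_div_of_nonneg_right (hC t ht1.le) ht0.le
          _ = _ := by rw [Real.rpow_sub_one ht0.ne', mul_div_assoc]
      refine h9.trans ?_
      rw [intervalIntegral.integral_const_mul, integral_rpow (Or.inl (by linarith)), sub_add_cancel,
        hpw]
      have h10 : 0 ≤ Real.exp 1 ^ (x / 2) := by positivity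
      calc C * ((Real.exp (x / 2 * u) - Real.exp 1 ^ (x / 2)) / (x / 2)) ≤
            C * (Real.exp (x / 2 * u) / (x / 2)) := by
            refine mul_le_mul_of_nonneg_left ?_ hC0
            exact div_le_div_of_nonneg_right (by linarith) (by positivity)
        _ = _ := by ring
    have h11 : K ≤ |K| * Real.exp (x / 2 * u) :=
      (le_abs_self K).trans (le_mul_of_one_le_right (abs_nonneg K) (Real.one_le_exp (by positivity)))
    show _ ≤ (C + |K| + C / (x / 2)) * Real.exp (x / 2 * u)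
    rw [add_mul, add_mul]
    linarith

end Pool.Agent.TH270.NG
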