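import Pool.Agent.TH270.NG.Law2

/-!
# The law for Mestre-Nagao sums: theorem
-/

set_option autoImplicit false

open MeasureTheory Filter Topology Set
open scoped ENNReal
open Pool.Agent.W263.BSD (GoodPrime pointCount IsLSeries bsdProduct bsdStar bsdProduct_pos rsSum LInt)
open Pool.Agent.TH270.MS Pool.Agent.TH270.MS.EQ
open CongruenceSubgroup
open scoped MatrixGroups

namespace Pool.Agent.TH270.NG

variable {a b : ℤ} {F : ℂ → ℂ}

/-- two values of the mean -/
theorem mean_unique {f : ℝ → ℝ} (hf : BM f) {c c' : ℝ}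
    (h : Tendsto (fun X : ℝ => (∫ x in Real.exp 1..X, |f x - c| / x) / Real.log X) atTop (𝓝 0))
    (h' : Tendsto (fun X : ℝ => (∫ x in Real.exp 1..X, |f x - c'| / x) / Real.log X) atTop (𝓝 0)) :
    c = c' := by
  have h1 : Tendsto (fun X : ℝ => |c - c'| - |c - c'| / Real.log X) atTop (𝓝 (|c - c'| - 0)) :=
    tendsto_const_nhds.sub (Real.tendsto_log_atTop.const_div_atTop _)
  have h2 : |c - c'| - 0 ≤ 0 := by
    have h3 := h.add h'
    rw [add_zero] at h3
    refine le_of_tendsto_of_tendsto h1 h3 ?_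
    filter_upwards [eventually_ge_atTop (Real.exp 1)] with X hX
    have hl : 0 < Real.log X := by linarith [one_le_log hX]
    have i1 := (hf.sub (BM.const c)).li.abs.div X hX
    have i2 := (hf.sub (BM.const c')).li.abs.div X hX
    rw [← add_div, ← intervalIntegral.integral_add i1 i2, le_div_iff₀ hl]
    have h4 : (|c - c'| - |c - c'| / Real.log X) * Real.log X =
        ∫ x in Real.exp 1..X, |c - c'| * (1 / x) := by
      rw [intervalIntegral.integral_const_mul, int_inv hX]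
      field_simp
    rw [h4]
    have i3 : IntervalIntegrable (fun x : ℝ => |c - c'| * (1 / x)) volume (Real.exp 1) X :=
      ((LI.const 1).div X hX).const_mul _
    refine intervalIntegral.integral_mono_on hX i3 (i1.add i2) fun x hx => ?_
    have hx0 : 0 < x := (Real.exp_pos 1).trans_le hx.1
    have h5 : |c - c'| ≤ |f x - c| + |f x - c'| := by
      have := abs_sub (f x - c') (f x - c)
      have h6 : f x - c' - (f x - c) = c - c' := by ring
      rw [h6] at this
      linarith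
    calc |c - c'| * (1 / x) = |c - c'| / x := by ring
      _ ≤ (|f x - c| + |f x - c'|) / x := div_le_div_of_nonneg_right h5 hx0.le
      _ = _ := by ring
  rw [sub_zero] at h2
  have := abs_eq_zero.1 (le_antisymm h2 (abs_nonneg _))
  linarith

variable {N : ℕ} [NeZero N] {f : CuspForm (Gamma0 N : Subgroup (GL (Fin 2) ℝ)) 2}

/-- **The law for the Mestre-Nagao sums of an elliptic curve.** -/
theorem law (hf : Pool.Agent.TH941.Hecke f) (hΔ : 4 * a ^ 3 + 27 * b ^ 2 ≠ 0)
    (hb : Pool.Agent.TH941.Belongs a b f) (hF : IsLSeries a b F)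
    (hrs : Tendsto (rsSum a b) atTop (𝓝 0)) {η C₀ : ℝ} {κ : ℕ} (hη : 0 < η)
    (hg : ∀ s : ℂ, 1 - η < s.re → ‖F s‖ ≤ C₀ * (1 + ‖s‖) ^ κ) (c : ℝ) {r : ℕ}
    (hr : analyticOrderAt F 1 = r) : List.TFAE [
      (∀ s : ℂ, 1 < s.re → F s ≠ 0) ∧ c = 1 / 2 - r,
      Tendsto (fun X : ℝ => (∫ x in Real.exp 1..X, |Sg a b x / Real.log x - c| / x) / Real.log X)
        atTop (𝓝 0),
      Tendsto (fun X : ℝ => (∫ x in Real.exp 1..X, (Sg a b x / Real.log x - c) ^ 2 / x) /
        Real.log X) atTop (𝓝 0),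
      (∀ ε : ℝ, 0 < ε → ∃ B : ℝ, ∀ X : ℝ, 1 ≤ X → |Sg a b X| ≤ B * X ^ ε) ∧
        ∃ S : Set ℝ, MeasurableSet S ∧ ∫⁻ x in S, ENNReal.ofReal (1 / x) < ⊤ ∧
          Tendsto (fun X : ℝ => Sg a b X / Real.log X) (atTop ⊓ 𝓟 Sᶜ) (𝓝 c)] := by
  have he : (1 : ℝ) ≤ Real.exp 1 := by linarith [Real.add_one_le_exp 1]
  have bmS := bm_div (bm_Sg a b)
  have bmc : ∀ c : ℝ, BM fun x => Sg a b x / Real.log x - c := fun c => bmS.sub (BM.const c)
  obtain ⟨M, hM0, hM⟩ := sum_bdd hf hΔ hb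
  have hM' : ∀ x : ℝ, Real.exp 1 ≤ x → |Sg a b x + Tg a b x| ≤ M * Real.log x := by
    intro x hx
    have hl : 0 < Real.log x := by linarith [one_le_log hx]
    have h1 := hM x hx
    have h2 : Sg a b x / Real.log x - -(Tg a b x / Real.log x) =
        (Sg a b x + Tg a b x) / Real.log x := by
      rw [add_div]
      ring
    rwa [h2, abs_div, abs_of_pos hl, div_le_iff₀ hl] at h1
  have h13 : ∀ c : ℝ, ((∀ s : ℂ, 1 < s.re → F s ≠ 0) ∧ c = 1 / 2 - r) →
      Tendsto (fun X : ℝ => (∫ x in Real.exp 1..X, (Sg a b x / Real.log x - c) ^ 2 / x) /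
        Real.log X) atTop (𝓝 0) := by
    rintro c ⟨hz, rfl⟩
    obtain ⟨C', hC', h1, h2, h3, -⟩ := pack hΔ hF hrs hη hg hz hr
    have h4 := (nag_dev hf hΔ hb hC' h1).sub h3
    rw [sub_zero] at h4
    have bms := bm_devStar a b (ρ := r) hC'
    refine sq_lmean (bmc _).sq.li (g := fun x => -devStar a b r C' x) ?_
      ((bmc _).sub bms.neg).sq.li ?_
    · simpa only [neg_sq] using h2
    · refine h4.congr fun x => ?_
      ring
  have h32 : ∀ c : ℝ, Tendsto (fun X : ℝ => (∫ x in Real.exp 1..X,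
      (Sg a b x / Real.log x - c) ^ 2 / x) / Real.log X) atTop (𝓝 0) →
      Tendsto (fun X : ℝ => (∫ x in Real.exp 1..X, |Sg a b x / Real.log x - c| / x) / Real.log X)
        atTop (𝓝 0) := fun c h => lmean_of_sq (bmc c).li (bmc c).sq.li h
  tfae_have 1 → 3 := h13 c
  tfae_have 3 → 2 := h32 c
  tfae_have 2 → 1 := by
    intro h
    have hz : ∀ s : ℂ, 1 < s.re → F s ≠ 0 := by
      refine bdd_law hf hΔ hb hF hrs hη hg ?_
      refine bmean_of (bmc c).li bmS.li (M := |c|) (fun y _ => ?_) ⟨1, ?_⟩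
      · have : Sg a b y / Real.log y - c - Sg a b y / Real.log y = -c := by ring
        rw [this, abs_neg]
      · have h1 := h.eventually_lt_const one_pos
        filter_upwards [h1, eventually_ge_atTop (Real.exp 1)] with X h2 hX
        have hl : 0 < Real.log X := by linarith [one_le_log hX]
        rw [div_lt_iff₀ hl] at h2
        exact h2.le
    exact ⟨hz, mean_unique bmS h (h32 _ (h13 _ ⟨hz, rfl⟩))⟩
  tfae_have 1 → 4 := by
    rintro ⟨hz, rfl⟩
    obtain ⟨C', hC', h1, h2, h3, S, hS1, hS2, hS3⟩ := pack hΔ hF hrs hη hg hz hr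
    refine ⟨fun ε hε => ?_, S, hS1, hS2, ?_⟩
    · obtain ⟨C, hC0, hC⟩ := T_growth (fun ε hε => Pool.Agent.TH942.OB.log_bound hF hη hg hz hε) hε
      set K₀ : ℝ := ∑ n ∈ Finset.range 4, |Sg a b (n : ℝ)| with hK₀
      have hK0 : 0 ≤ K₀ := Finset.sum_nonneg fun _ _ => abs_nonneg _
      refine ⟨C + M / ε + K₀, fun x hx => ?_⟩
      have hx0 : 0 < x := by linarith
      have hp : 1 ≤ x ^ ε := Real.one_le_rpow hx hε.le
      rcases le_or_gt (Real.exp 1) x with h4 | h4
      · have h5 := hC x h4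
        have h6 := hM' x h4
        have h7 : Real.log x ≤ x ^ ε / ε := Real.log_le_rpow_div hx0.le hε
        have h8 : M * Real.log x ≤ M / ε * x ^ ε := by
          calc _ ≤ M * (x ^ ε / ε) := mul_le_mul_of_nonneg_left h7 hM0
            _ = _ := by ring
        have h9 : |Sg a b x| ≤ |Sg a b x + Tg a b x| + |Tg a b x| := by
          have := abs_sub (Sg a b x + Tg a b x) (Tg a b x)
          rwa [add_sub_cancel_right] at this
        have h10 : 0 ≤ K₀ * x ^ ε := by positivity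
        rw [add_mul, add_mul]
        linarith
      · have h5 : |Sg a b x| ≤ K₀ := by
          have h6 : Sg a b x = Sg a b (⌊x⌋₊ : ℝ) := by
            unfold Sg
            rw [Nat.floor_natCast]
          rw [h6, hK₀]
          refine Finset.single_le_sum (f := fun n : ℕ => |Sg a b (n : ℝ)|)
            (fun n _ => abs_nonneg _) (Finset.mem_range.2 ?_)
          rw [Nat.floor_lt hx0.le]
          push_cast
          linarith [Real.exp_one_lt_three]
        have h6 : K₀ ≤ K₀ * x ^ ε := le_mul_of_one_le_right hK0 hp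
        have h7 : 0 ≤ (C + M / ε) * x ^ ε := by positivity
        rw [add_mul]
        linarith
    · have h4 := ((nag_dev hf hΔ hb hC' h1).mono_left (inf_le_left (b := 𝓟 Sᶜ))).sub hS3
      rw [sub_zero] at h4
      have h5 := h4.add_const (1 / 2 - (r : ℝ))
      rw [zero_add] at h5
      refine h5.congr fun x => ?_
      ring
  tfae_have 4 → 1 := by
    rintro ⟨h, S, hS1, hS2, hS3⟩
    have hz : ∀ s : ℂ, 1 < s.re → F s ≠ 0 := by
      refine rh_of_T hΔ hF hrs hη hg fun ε hε => ?_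
      obtain ⟨B, hB⟩ := h ε hε
      have hB0 : 0 ≤ B := by
        have := (abs_nonneg _).trans (hB 1 le_rfl)
        rwa [Real.one_rpow, mul_one] at this
      refine ⟨B + M / ε, by positivity, fun x hx => ?_⟩
      have hx0 : 0 < x := (Real.exp_pos 1).trans_le hx
      have h6 := hM' x hx
      have h7 : Real.log x ≤ x ^ ε / ε := Real.log_le_rpow_div hx0.le hε
      have h8 : M * Real.log x ≤ M / ε * x ^ ε := by
        calc _ ≤ M * (x ^ ε / ε) := mul_le_mul_of_nonneg_left h7 hM0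
          _ = _ := by ring
      have h9 : |Tg a b x| ≤ |Sg a b x + Tg a b x| + |Sg a b x| := by
        have := abs_sub (Sg a b x + Tg a b x) (Sg a b x)
        rwa [add_sub_cancel_left] at this
      have h10 := hB x (he.trans hx)
      rw [add_mul]
      linarith
    obtain ⟨C', hC', h1, h2, h3, S', hS'1, hS'2, hS'3⟩ := pack hΔ hF hrs hη hg hz hr
    have hU : ∫⁻ x in S ∪ S', ENNReal.ofReal (1 / x) < ⊤ :=
      (lintegral_union_le _ _ _).trans_lt (ENNReal.add_lt_top.2 ⟨hS2, hS'2⟩)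
    have hne : (atTop ⊓ 𝓟 (S ∪ S')ᶜ : Filter ℝ).NeBot := exc_neBot hU
    have l1 : (atTop ⊓ 𝓟 (S ∪ S')ᶜ : Filter ℝ) ≤ atTop ⊓ 𝓟 Sᶜ :=
      inf_le_inf_left _ (principal_mono.2 (compl_subset_compl.2 subset_union_left))
    have l2 : (atTop ⊓ 𝓟 (S ∪ S')ᶜ : Filter ℝ) ≤ atTop ⊓ 𝓟 S'ᶜ :=
      inf_le_inf_left _ (principal_mono.2 (compl_subset_compl.2 subset_union_right))
    refine ⟨hz, tendsto_nhds_unique (hS3.mono_left l1) ?_⟩
    have h4 := ((nag_dev hf hΔ hb hC' h1).mono_left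
      (inf_le_left (b := 𝓟 (S ∪ S')ᶜ))).sub (hS'3.mono_left l2)
    rw [sub_zero] at h4
    have h5 := h4.add_const (1 / 2 - (r : ℝ))
    rw [zero_add] at h5
    refine h5.congr fun x => ?_
    ring
  tfae_finish

/-- bounded means and the Riemann hypothesis -/
theorem law_bdd (hf : Pool.Agent.TH941.Hecke f) (hΔ : 4 * a ^ 3 + 27 * b ^ 2 ≠ 0)
    (hb : Pool.Agent.TH941.Belongs a b f) (hF : IsLSeries a b F)
    (hrs : Tendsto (rsSum a b) atTop (𝓝 0)) {η C₀ : ℝ} {κ : ℕ} (hη : 0 < η)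
    (hg : ∀ s : ℂ, 1 - η < s.re → ‖F s‖ ≤ C₀ * (1 + ‖s‖) ^ κ) :
    (∀ s : ℂ, 1 < s.re → F s ≠ 0) ↔
      ∃ B : ℝ, ∀ᶠ X : ℝ in atTop, ∫ x in Real.exp 1..X, |Sg a b x / Real.log x| / x ≤
        B * Real.log X := by
  refine ⟨fun hz => ?_, bdd_law hf hΔ hb hF hrs hη hg⟩
  obtain ⟨r, hr⟩ := Pool.Agent.W189.ML.order_finite_all hF 1
  have bmS := bm_div (bm_Sg a b)
  have t : ((∀ s : ℂ, 1 < s.re → F s ≠ 0) ∧ (1 / 2 - r : ℝ) = 1 / 2 - r) ↔
    Tendsto (fun X : ℝ => (∫ x in Real.exp 1..X, |Sg a b x / Real.log x - (1 / 2 - r)| / x) /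
      Real.log X) atTop (𝓝 0) := (law hf hΔ hb hF hrs hη hg (1 / 2 - r) hr).out 0 1
  have h := t.1 ⟨hz, rfl⟩
  have bmc : BM fun x => Sg a b x / Real.log x - (1 / 2 - r) := bmS.sub (BM.const _)
  refine bmean_of bmc.li bmS.li (M := |(1 / 2 - r : ℝ)|) (fun y _ => ?_) ⟨1, ?_⟩
  · have : Sg a b y / Real.log y - (1 / 2 - r) - Sg a b y / Real.log y = -(1 / 2 - r) := by ring
    rw [this, abs_neg]
  · have h1 := h.eventually_lt_const one_pos
    filter_upwards [h1, eventually_ge_atTop (Real.exp 1)] with X h2 hX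
    have hl : 0 < Real.log X := by linarith [one_le_log hX]
    rw [div_lt_iff₀ hl] at h2
    exact h2.le

end Pool.Agent.TH270.NG
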